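import Pool.Agent.Lib.MP_70f607_gt.Gen1
import Pool.Agent.Lib.MP_4e922d_lc.T

/-!
# Module G1: the axiom of choice in generic models
-/

namespace SymExt

universe u

open Name

namespace G1Aux

variable {𝔹 : Type u} [CompleteBooleanAlgebra 𝔹]

theorem hs_all (x : Name 𝔹) : (triv 𝔹).HS x := by
  induction x using ind with
  | h x ih =>
    rw [SymSys.hs_iff]
    refine ⟨⟨⊤, trivial, fun g _ => ?_⟩, ih⟩
    have : (triv 𝔹).am g x = x := map_of_id (fun _ => rfl) x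
    rw [this, beq_refl]

variable {C : Set (Name 𝔹)} {U : Set 𝔹}

theorem mem_acN (h : Good (triv 𝔹) C U) (hop : ∀ x y : Name 𝔹, opN x y ∈ C → x ∈ C ∧ y ∈ C)
    {w : Name 𝔹} {z : ZFSet.{u}} : z ∈ val C U (acN w) ↔ ∃ i : w.idx,
      ordN (Ordinal.typein WellOrderingRel i) ∈ C ∧ w.elt i ∈ C ∧
      z = ZFSet.pair (val C U (ordN (Ordinal.typein WellOrderingRel i))) (val C U (w.elt i)) := by
  rw [acN, mem_val]
  constructor
  · rintro ⟨i, h1, -, h2⟩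
    change opN (ordN (Ordinal.typein WellOrderingRel i)) (w.elt i) ∈ C at h1
    change z = val C U (opN (ordN (Ordinal.typein WellOrderingRel i)) (w.elt i)) at h2
    obtain ⟨h3, h4⟩ := hop _ _ h1
    rw [h.val_opN h3 h4] at h2
    exact ⟨i, h3, h4, h2⟩
  · rintro ⟨i, h1, h2, h3⟩
    refine ⟨i, h.opN_mem h1 h2, h.top, ?_⟩
    change z = val C U (opN (ordN (Ordinal.typein WellOrderingRel i)) (w.elt i))
    rw [h.val_opN h1 h2]
    exact h3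

theorem lt_of_mem (h : Good (triv 𝔹) C U) {a b : Ordinal.{u}}
    (hb : (ordN b : Name 𝔹) ∈ C)
    (hm : val C U (ordN a : Name 𝔹) ∈ val C U (ordN b)) : a < b := by
  rcases lt_trichotomy a b with h' | h' | h'
  · exact h'
  · rw [h'] at hm
    exact absurd hm (ZFSet.mem_irrefl _)
  · exact absurd (val_ordN_mem h.top h' hb) (ZFSet.mem_asymm hm)

theorem choice (h : Good (triv 𝔹) C U) (hac : ∀ x ∈ C, acN x ∈ C)
    (hae : ∀ x ∈ C, ∀ y ∈ C, acE x y ∈ C)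
    (hop : ∀ x y : Name 𝔹, opN x y ∈ C → x ∈ C ∧ y ∈ C) : ChoiceIn (model (triv 𝔹) C U) := by
  classical
  have hZ : IsZF (model (triv 𝔹) C U) := h.isZF
  rintro A ⟨a₀, ha₀, -, rfl⟩
  have hAN : val C U a₀ ∈ model (triv 𝔹) C U := ⟨a₀, ha₀, hs_all _, rfl⟩
  have hwC : unionN a₀ ∈ C := h.union _ ha₀
  have hRN : val C U (acN (unionN a₀)) ∈ model (triv 𝔹) C U :=
    ⟨_, hac _ hwC, hs_all _, rfl⟩
  have hUN : ZFSet.sUnion (val C U a₀) ∈ model (triv 𝔹) C U := hZ.union _ hAN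
  -- the relation is a function
  have fun1 : ∀ α b b', ZFSet.pair α b ∈ val C U (acN (unionN a₀)) →
      ZFSet.pair α b' ∈ val C U (acN (unionN a₀)) → b = b' := by
    intro α b b' h1 h2
    obtain ⟨i, i1, i2, i3⟩ := (mem_acN h hop).1 h1
    obtain ⟨j, j1, j2, j3⟩ := (mem_acN h hop).1 h2
    obtain ⟨e1, e2⟩ := ZFSet.pair_inj.1 i3
    obtain ⟨e3, e4⟩ := ZFSet.pair_inj.1 j3
    have e5 := val_ordN_inj h.top i1 j1 (e1.symm.trans e3)
    have e6 : i = j := (Ordinal.typein WellOrderingRel).injective e5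
    rw [e2, e4, e6]
  -- its range
  have ran : ∀ a ∈ val C U a₀, ∀ b ∈ a, ∃ o : Ordinal.{u}, (ordN o : Name 𝔹) ∈ C ∧
      ZFSet.pair (val C U (ordN o)) b ∈ val C U (acN (unionN a₀)) := by
    intro a ha b hb
    have h1 : b ∈ val C U (unionN a₀) := by
      obtain ⟨i, h1, h2, rfl⟩ := mem_val.1 ha
      obtain ⟨j, h3, h4, rfl⟩ := mem_val.1 hb
      exact mem_val.2 ⟨⟨i, j⟩, h3, h.inf _ h2 _ h4, rfl⟩
    obtain ⟨i, h2, -, rfl⟩ := mem_val.1 h1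
    have h3 := hae _ hwC _ h2
    have h4 : ∃ j, (unionN a₀).elt j = (unionN a₀).elt i := ⟨i, rfl⟩
    rw [acE, dif_pos h4] at h3
    obtain ⟨h5, h6⟩ := hop _ _ h3
    refine ⟨_, h5, (mem_acN h hop).2 ⟨h4.choose, h5, ?_, ?_⟩⟩
    · rw [h4.choose_spec]
      exact h2
    · rw [h4.choose_spec]
  -- the choice function
  obtain ⟨W, hW, hW'⟩ := ModT.stProd hZ _ hAN _ hUN
  have hd : ModT.Dfn (model (triv 𝔹) C U) (fun v : Fin 3 → ZFSet.{u} =>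
      ∃ a ∈ model (triv 𝔹) C U, ∃ b ∈ model (triv 𝔹) C U, v 0 = ZFSet.pair a b ∧ b ∈ a ∧
        ∃ α ∈ model (triv 𝔹) C U, ZFSet.pair α b ∈ v 2 ∧
          ∀ b' ∈ model (triv 𝔹) C U, b' ∈ a → ∀ α' ∈ model (triv 𝔹) C U, α' ∈ α →
            ¬ ZFSet.pair α' b' ∈ v 2) :=
    ModT.dex (ModT.dex (ModT.dand (ModT.dopair hZ _ _ _) (ModT.dand (ModT.dmem _ _)
      (ModT.dex (ModT.dand (ModT.dpmem hZ _ _ _) (ModT.dall (ModT.dimp (ModT.dmem _ _)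
        (ModT.dall (ModT.dimp (ModT.dmem _ _) (ModT.dnot (ModT.dpmem hZ _ _ _)))))))))))
  obtain ⟨f, hf, hf'⟩ := ModT.sep_mem hZ hd ![val C U a₀, val C U (acN (unionN a₀))] (by
    intro i; fin_cases i
    · exact hAN
    · exact hRN) hW
  have hf2 : ∀ a ∈ val C U a₀, ∀ b, ZFSet.pair a b ∈ f ↔ b ∈ a ∧
      ∃ o : Ordinal.{u}, (ordN o : Name 𝔹) ∈ C ∧
        ZFSet.pair (val C U (ordN o)) b ∈ val C U (acN (unionN a₀)) ∧
        ∀ b' ∈ a, ∀ o' : Ordinal.{u}, o' < o → (ordN o' : Name 𝔹) ∈ C →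
          ZFSet.pair (val C U (ordN o')) b' ∉ val C U (acN (unionN a₀)) := by
    intro a ha b
    rw [hf']
    constructor
    · rintro ⟨-, a', -, b1, -, e, h1, α, hα, h2, h3⟩
      obtain ⟨rfl, rfl⟩ := ZFSet.pair_inj.1 e
      have h2' : ZFSet.pair α b ∈ val C U (acN (unionN a₀)) := h2
      obtain ⟨i, i1, i2, i3⟩ := (mem_acN h hop).1 h2'
      obtain ⟨rfl, -⟩ := ZFSet.pair_inj.1 i3
      refine ⟨h1, _, i1, h2', fun b' hb' o' ho' hC' hm => ?_⟩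
      have haN := hZ.trans _ hAN _ ha
      exact h3 b' (hZ.trans _ haN _ hb') hb' _ ⟨_, hC', hs_all _, rfl⟩
        (val_ordN_mem h.top ho' hC') hm
    · rintro ⟨h1, o, h2, h3, h4⟩
      have haN := hZ.trans _ hAN _ ha
      refine ⟨(hW' _).2 ⟨a, ha, b, ZFSet.mem_sUnion.2 ⟨a, ha, h1⟩, rfl⟩, a, haN, b,
        hZ.trans _ haN _ h1, rfl, h1, _, ⟨_, h2, hs_all _, rfl⟩, h3, ?_⟩
      intro b' _ hb' α' _ hα' hm
      have hm' : ZFSet.pair α' b' ∈ val C U (acN (unionN a₀)) := hm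
      obtain ⟨i, i1, i2, i3⟩ := (mem_acN h hop).1 hm'
      obtain ⟨rfl, -⟩ := ZFSet.pair_inj.1 i3
      exact h4 b' hb' _ (lt_of_mem h h2 hα') i1 hm'
  refine ⟨f, hf, ?_, ?_⟩
  · intro z hz
    obtain ⟨h1, a, ha, b, hb, h2, h3, -⟩ := (hf' z).1 hz
    obtain ⟨a', ha', b', hb', h4⟩ := (hW' z).1 h1
    have h2' : z = ZFSet.pair a b := h2
    obtain ⟨rfl, rfl⟩ := ZFSet.pair_inj.1 (h4.symm.trans h2')
    exact ⟨a', ha', b', h3, h4⟩
  · intro a ha hne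
    obtain ⟨b₀, hb₀⟩ : ∃ b, b ∈ a := by
      by_contra hc
      push Not at hc
      exact hne ((ZFSet.eq_empty a).2 hc)
    have hne' : ∃ o : Ordinal.{u}, (ordN o : Name 𝔹) ∈ C ∧ ∃ b ∈ a,
        ZFSet.pair (val C U (ordN o)) b ∈ val C U (acN (unionN a₀)) := by
      obtain ⟨o, h1, h2⟩ := ran a ha b₀ hb₀
      exact ⟨o, h1, b₀, hb₀, h2⟩
    obtain ⟨o, ⟨h1, b, hb, h2⟩, h3⟩ := WellFounded.has_min (wellFounded_lt (α := Ordinal.{u}))
      {o : Ordinal.{u} | (ordN o : Name 𝔹) ∈ C ∧ ∃ b ∈ a,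
        ZFSet.pair (val C U (ordN o)) b ∈ val C U (acN (unionN a₀))} hne'
    refine ⟨b, (hf2 a ha b).2 ⟨hb, o, h1, h2, fun b' hb' o' ho' hC' hm =>
      h3 o' ⟨hC', b', hb', hm⟩ ho'⟩, ?_⟩
    intro b' hb'
    obtain ⟨g1, o', g2, g3, g4⟩ := (hf2 a ha b').1 hb'
    have e : o' = o := by
      refine le_antisymm (not_lt.1 fun hlt => ?_) (not_lt.1 fun hlt => ?_)
      · exact g4 b hb o hlt h1 h2
      · exact h3 o' ⟨g2, b', g1, g3⟩ hlt
    rw [e] at g3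
    exact fun1 _ _ _ g3 h2

end G1Aux

/-- Module G1. -/
theorem stAC : StAC.{u} := fun _ _ =>
  ⟨G1Aux.hs_all, fun _ _ h hac hae hop => ⟨h.isZF, G1Aux.choice h hac hae hop⟩⟩

end SymExt
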