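import Pool.Agent.Lib.MP_70f607_gt.Gen1

/-!
# Distributivity of countably closed forcing
-/

set_option autoImplicit false

namespace SymExt

universe u v w

namespace G2Aux

variable {P : Type u} [Preorder P] {𝔹 : Type v} [CompleteBooleanAlgebra 𝔹] {e : P → 𝔹}

theorem le_of_no (hd : DenseMap e) {a R : 𝔹} (h : ∀ p, e p ≤ a → ∃ q ≤ p, e q ≤ R) : a ≤ R := by
  by_contra hcon
  have h1 : a ⊓ Rᶜ ≠ ⊥ := by
    intro h2
    rw [← disjoint_iff, disjoint_compl_right_iff] at h2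
    exact hcon h2
  obtain ⟨p, hp⟩ := hd.dense _ h1
  obtain ⟨q, hq, hq'⟩ := h p (hp.trans inf_le_left)
  exact hd.not_both hq' ((hd.mono _ _ hq).trans (hp.trans inf_le_right))

end G2Aux

open G2Aux

theorem stTree : StTree.{u, v, w} := by
  intro P _ 𝔹 _ e hd hc T next b t0 hb
  refine le_of_no hd fun p hp => ?_
  let S := {s : P × T // e s.1 ≤ b s.2}
  have step : ∀ s : S, ∃ s' : S, s'.1.1 ≤ s.1.1 ∧ next s.1.2 s'.1.2 := by
    rintro ⟨⟨q, t⟩, hs⟩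
    obtain ⟨q', hq', ⟨t', ht'⟩, h'⟩ := hd.exists_iSup (hs.trans (hb t))
    exact ⟨⟨(q', t'), h'⟩, hq', ht'⟩
  choose f hf1 hf2 using step
  let s : ℕ → S := fun n => Nat.rec ⟨(p, t0), hp⟩ (fun _ x => f x) n
  obtain ⟨q, hq⟩ := hc (fun n => (s n).1.1) fun n => hf1 (s n)
  refine ⟨q, hq 0, ?_⟩
  refine le_trans ?_ (le_iSup _ (⟨fun n => (s n).1.2, rfl, fun n => hf2 (s n)⟩ : {π : ℕ → T // π 0 = t0 ∧ ∀ n, next (π n) (π (n + 1))}))
  exact le_iInf fun n => (hd.mono _ _ (hq n)).trans (s n).2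

theorem stDist : StDist.{u, v, w} := by
  intro P _ 𝔹 _ e hd hc J _ T b
  refine le_of_no hd fun p hp => ?_
  suffices h : ∃ q ≤ p, ∀ j, ∃ t, e q ≤ b j t by
    obtain ⟨q, hq, h⟩ := h
    choose g hg using h
    exact ⟨q, hq, le_trans (le_iInf hg) (le_iSup (fun h : (∀ j, T j) => ⨅ j, b j (h j)) g)⟩
  rcases isEmpty_or_nonempty J with hJ | hJ
  · exact ⟨p, le_rfl, fun j => (hJ.false j).elim⟩
  obtain ⟨en, hen⟩ := exists_surjective_nat J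
  let S := {q : P // e q ≤ ⨅ j, ⨆ t, b j t}
  have step : ∀ (n : ℕ) (q : S), ∃ q' : S, q'.1 ≤ q.1 ∧ ∃ t, e q'.1 ≤ b (en n) t := by
    rintro n ⟨q, hq⟩
    obtain ⟨q', hq', t, ht⟩ := hd.exists_iSup (hq.trans (iInf_le _ (en n)))
    exact ⟨⟨q', (hd.mono _ _ hq').trans hq⟩, hq', t, ht⟩
  choose f hf1 hf2 using step
  let s : ℕ → S := fun n => Nat.rec ⟨p, hp⟩ (fun n x => f n x) n
  obtain ⟨q, hq⟩ := hc (fun n => (s n).1) fun n => hf1 n (s n)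
  refine ⟨q, hq 0, fun j => ?_⟩
  obtain ⟨n, rfl⟩ := hen j
  obtain ⟨t, ht⟩ := hf2 n (s n)
  exact ⟨t, (hd.mono _ _ (hq (n + 1))).trans ht⟩

end SymExt
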