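import Pool.Agent.Lib.MP_70f607_gt.Force

/-!
# Assembly
-/

namespace SymExt

namespace GO

open Name

theorem SelOne.mono {N : Set ZFSet.{0}} {X : ZFSet.{0}} {P Q : ZFSet.{0} → Prop}
    (h : ∀ O, P O → Q O) (hQ : SelOne N X Q) : SelOne N X P := by
  intro A hA hP
  exact hQ A hA fun n => ⟨(hP n).1, fun O hO => h O ((hP n).2 O hO)⟩

theorem main_of (hAC : StAC.{0}) (hB : StBool) (hGG : StGG) (hVV : StVV) (hN : StNeg)
    (hP : StPos) :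
    ∃ N : Set ZFSet.{0}, N.Countable ∧ IsZFC N ∧ ∃ X ∈ N, (∀ x ∈ X, IsPoint x) ∧
      SelOne N X (ClosedSub X) ∧ SelOne N X (ClopenSub X) ∧ ¬ SelOne N X (OpenSub X) := by
  obtain ⟨C, U, hg, hgg, h1, h2⟩ := hGG hB
  obtain ⟨hs, hac⟩ := hAC B
  have hv := hVV C U hg hgg
  have hcl := hP hs hB.2.2.2.2.1 C U hg hgg hv
  refine ⟨model (triv B) C U, model_countable hg, hac C U hg h1 h2 hgg.unop, val C U XN,
    ⟨XN, hgg.cX, hs _, rfl⟩, ?_, hcl, SelOne.mono (fun O hO => hO.2) hcl,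
    hN hs hB.2.2.2.2.2 C U hg hgg hv⟩
  intro x hx
  obtain ⟨w, hw, _, rfl⟩ := (hv.space x).1 hx
  exact ⟨enc w, hv.pt w hw⟩

end GO

end SymExt
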