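import Pool.Agent.Lib.MP_70f607_gt.Comb

/-!
# Module C1: the uniformity lemma for thin rows
-/

set_option autoImplicit false

namespace SymExt

namespace GO

namespace C1

theorem mem_infs {e : ℕ → ℕ} {L : Finset ℕ} {p : (ℕ × ℕ) × ℕ∞} :
    p ∈ infs e L ↔ p.1.1 ∈ L ∧ p = ((p.1.1, e p.1.1), ⊤) := by
  unfold infs
  rw [Finset.mem_image]
  constructor
  · rintro ⟨j, hj, rfl⟩
    exact ⟨hj, rfl⟩
  · rintro ⟨h1, h2⟩
    exact ⟨p.1.1, h1, h2.symm⟩

theorem ok_insert {s : Cd} (hs : Ok s) {j n : ℕ} (hj : ∀ p ∈ s, p.1.1 ≠ j) :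
    Ok (insert ((j, n), (⊤ : ℕ∞)) s) := by
  constructor
  · intro p hp q hq h
    rw [Finset.mem_insert] at hp hq
    rcases hp with rfl | hp <;> rcases hq with rfl | hq
    · rfl
    · exact absurd (congrArg Prod.fst h).symm (hj q hq)
    · exact absurd (congrArg Prod.fst h) (hj p hp)
    · exact hs.1 p hp q hq h
  · intro p hp q hq h1 h2 h
    rw [Finset.mem_insert] at hp hq
    rcases hp with rfl | hp <;> rcases hq with rfl | hq
    · rfl
    · exact absurd h.symm (hj q hq)
    · exact absurd h (hj p hp)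
    · exact hs.2 p hp q hq h1 h2 h

end C1

open C1

theorem stUni : StUni := by
  intro R hR s hs L
  induction L using Finset.strongInduction generalizing s with
  | H L ih =>
    intro hsL
    obtain ⟨u0, hu0, N0, hN0⟩ := hR s hs
    obtain ⟨B, hB⟩ : ∃ B : ℕ, ∀ p ∈ u0, p.1.2 < B :=
      ⟨(u0.sup fun p => p.1.2) + 1, fun p hp => Nat.lt_succ_of_le
        (Finset.le_sup (f := fun p : (ℕ × ℕ) × ℕ∞ => p.1.2) hp)⟩
    have key : ∀ j n, j ∈ L → ∃ N, ∀ m ≥ N, ∀ e : ℕ → ℕ, ∃ u,
        Fx (insert ((j, n), (⊤ : ℕ∞)) s ∪ infs e (L.erase j)) u ∧ ∀ x ∈ bx u, x ∉ R m := by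
      intro j n hj
      refine ih (L.erase j) (Finset.erase_ssubset hj) _ (ok_insert hs fun p hp h => ?_) ?_
      · exact hsL p hp (h ▸ hj)
      · intro p hp
        rw [Finset.mem_insert] at hp
        rcases hp with rfl | hp
        · exact Finset.notMem_erase _ _
        · exact fun h => hsL p hp (Finset.mem_of_mem_erase h)
    choose! Nf hNf using key
    refine ⟨max N0 ((L ×ˢ Finset.range B).sup fun q => Nf q.1 q.2), fun m hm e => ?_⟩
    by_cases h : ∃ j ∈ L, e j < B
    · obtain ⟨j, hj, hjB⟩ := h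
      have hm' : Nf j (e j) ≤ m := by
        refine le_trans ?_ ((le_max_right _ _).trans hm)
        exact Finset.le_sup (f := fun q : ℕ × ℕ => Nf q.1 q.2)
          (Finset.mem_product.2 ⟨hj, Finset.mem_range.2 hjB⟩ : (j, e j) ∈ L ×ˢ Finset.range B)
      obtain ⟨u, hu, hx⟩ := hNf j (e j) hj m hm' e
      refine ⟨u, ?_, hx⟩
      have he : insert ((j, e j), (⊤ : ℕ∞)) s ∪ infs e (L.erase j) = s ∪ infs e L := by
        conv_rhs => rw [← Finset.insert_erase hj]
        unfold infs
        rw [Finset.image_insert, Finset.insert_union, Finset.union_insert]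
      rwa [he] at hu
    · push Not at h
      refine ⟨u0 ∪ infs e L, ⟨Finset.union_subset_union_left hu0.1, ⟨?_, ?_⟩, ?_⟩, ?_⟩
      · intro p hp q hq hpq
        rw [Finset.mem_union] at hp hq
        rcases hp with hp | hp <;> rcases hq with hq | hq
        · exact hu0.2.1.1 p hp q hq hpq
        · rw [mem_infs] at hq
          have h1 := hB p hp
          rw [hpq, hq.2] at h1
          exact absurd h1 (not_lt.2 (h _ hq.1))
        · rw [mem_infs] at hp
          have h1 := hB q hq
          rw [← hpq, hp.2] at h1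
          exact absurd h1 (not_lt.2 (h _ hp.1))
        · rw [mem_infs] at hp hq
          rw [hp.2, hq.2, hpq]
      · intro p hp q hq h1 h2 hpq
        rw [Finset.mem_union] at hp hq
        rcases hp with hp | hp <;> rcases hq with hq | hq
        · exact hu0.2.1.2 p hp q hq h1 h2 hpq
        · rw [mem_infs] at hq
          exact absurd (hpq ▸ hq.1) (hsL p (hu0.2.2 p hp h1))
        · rw [mem_infs] at hp
          exact absurd (hpq ▸ hp.1) (hsL q (hu0.2.2 q hq h2))
        · rw [mem_infs] at hp hq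
          rw [hp.2, hq.2, hpq]
      · intro p hp h1
        rw [Finset.mem_union] at hp ⊢
        rcases hp with hp | hp
        · exact Or.inl (hu0.2.2 p hp h1)
        · exact Or.inr hp
      · intro x hx
        exact hN0 m ((le_max_left _ _).trans hm) x fun p hp =>
          hx p (Finset.mem_union_left _ hp)

end GO

end SymExt
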