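import Pool.Agent.Lib.MP_70f607_gt.Comb

set_option autoImplicit false

/-!
# Module C2: choice of the selection for a code with thin rows
-/

namespace SymExt

namespace GO

namespace C2

/-- countably many functions are eventually dominated by one function -/
theorem exists_dom {ι : Type} [Countable ι] (b : ι → ℕ → ℕ) :
    ∃ h : ℕ → ℕ, ∀ i, ∃ k0, ∀ k ≥ k0, b i k ≤ h k := by
  cases isEmpty_or_nonempty ι with
  | inl h => exact ⟨fun _ => 0, fun i => (h.false i).elim⟩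
  | inr h =>
    obtain ⟨e, he⟩ := exists_surjective_nat ι
    refine ⟨fun k => (Finset.range (k + 1)).sup fun n => b (e n) k, fun i => ?_⟩
    obtain ⟨n, rfl⟩ := he i
    refine ⟨n, fun k hk => ?_⟩
    exact Finset.le_sup (f := fun n => b (e n) k) (Finset.mem_range.2 (by omega))

theorem exists_bd (s : Cd) (l : ℕ) : ∃ l', l ≤ l' ∧ Bd s l' := by
  refine ⟨max l (s.sup (fun p => p.1.1 + 1)), le_max_left _ _, fun p hp => ?_⟩
  have h : p.1.1 + 1 ≤ s.sup (fun p => p.1.1 + 1) :=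
    Finset.le_sup (f := fun p : (ℕ × ℕ) × ℕ∞ => p.1.1 + 1) hp
  exact lt_of_lt_of_le (Nat.lt_succ_self _) (h.trans (le_max_right _ _))

/-- the demand of `(s, s', l)` on the member `m` of the row `R` -/
def Dem (R : ℕ → Set W) (s s' : Cd) (l m : ℕ) : Prop :=
  ∃ u l1, l ≤ l1 ∧ Fx s u ∧ Bd u l1 ∧ (∀ x ∈ bx u, x ∉ R m) ∧
    ∀ e : ℕ → ℕ, ∃ u', Fx (s' ∪ infs e (Finset.Ico l l1)) u' ∧ ∀ x ∈ bx u', x ∉ R m

theorem exists_dem (h : StUni) {R : ℕ → Set W} (hR : ThinRow R) {s s' : Cd} {l : ℕ} (hs : Ok s)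
    (hs' : Ok s') (hl' : Bd s' l) : ∃ N, ∀ m ≥ N, Dem R s s' l m := by
  obtain ⟨u, hu, N1, hN1⟩ := hR s hs
  obtain ⟨l1, hl1, hb⟩ := exists_bd u l
  obtain ⟨N2, hN2⟩ := h R hR s' hs' (Finset.Ico l l1) (by
    intro p hp hm
    have h1 := hl' p hp
    rw [Finset.mem_Ico] at hm
    omega)
  exact ⟨max N1 N2, fun m hm => ⟨u, l1, hl1, hu, hb, hN1 m (le_trans (le_max_left _ _) hm),
    hN2 m (le_trans (le_max_right _ _) hm)⟩⟩

end C2

open C2 in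
theorem stSel (h : StUni) : StSel := by
  intro O hO Y hY hYO
  have : Countable Y := hY.to_subtype
  -- bounds for the demands
  have h1 : ∀ (i : Cd × Cd × ℕ) (k : ℕ), ∃ N, Ok i.1 → Ok i.2.1 → Bd i.2.1 i.2.2 →
      ∀ m ≥ N, Dem (O k) i.1 i.2.1 i.2.2 m := by
    intro i k
    by_cases hc : Ok i.1 ∧ Ok i.2.1 ∧ Bd i.2.1 i.2.2
    · obtain ⟨N, hN⟩ := exists_dem h (hO k) hc.1 hc.2.1 hc.2.2
      exact ⟨N, fun _ _ _ => hN⟩
    · exact ⟨0, fun a b c => (hc ⟨a, b, c⟩).elim⟩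
  choose b hb using h1
  have h2 : ∀ (x : Y) (k : ℕ), ∃ N, ∀ m ≥ N, x.1 ∉ O k m := fun x k => hYO x.1 x.2 k
  choose c hc using h2
  obtain ⟨f, hf⟩ := exists_dom (ι := Cd × Cd × ℕ) b
  obtain ⟨g, hg⟩ := exists_dom (ι := Y) c
  refine ⟨fun k => max (f k) (g k), ?_, ?_⟩
  · intro s s' l hs hs' hl hl'
    obtain ⟨k0, hk0⟩ := hf (s, s', l)
    exact ⟨k0, fun k hk => hb (s, s', l) k hs hs' hl' _ ((hk0 k hk).trans (le_max_left _ _))⟩
  · intro x hx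
    obtain ⟨k0, hk0⟩ := hg ⟨x, hx⟩
    exact ⟨k0, fun k hk => hc ⟨x, hx⟩ k _ ((hk0 k hk).trans (le_max_right _ _))⟩

end GO

end SymExt
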