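import Pool.Agent.Lib.MP_70f607_gt.C4

set_option autoImplicit false

/-!
# Module C3: adding a point that kills a row which is not thin
-/

namespace SymExt

namespace GO

namespace C3

open C4

theorem fx_refl {s : Cd} (h : Ok s) : Fx s s := ⟨subset_rfl, h, fun _ hp _ => hp⟩

theorem fx_trans {s t u : Cd} (h1 : Fx s t) (h2 : Fx t u) : Fx s u :=
  ⟨h1.1.trans h2.1, h2.2.1, fun p hp ht => h1.2.2 p (h2.2.2 p hp ht) ht⟩

/-- adding finite values at new coordinates -/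
theorem fx_union {s u : Cd} (h : Fx s u) (L : Finset (ℕ × ℕ)) (g : ℕ × ℕ → ℕ∞)
    (hL : ∀ c ∈ L, ∀ v, (c, v) ∉ u) (hg : ∀ c ∈ L, g c ≠ ⊤) :
    Fx s (u ∪ L.image fun c => (c, g c)) := by
  refine ⟨h.1.trans Finset.subset_union_left, ⟨?_, ?_⟩, ?_⟩
  · intro p hp q hq hpq
    rcases Finset.mem_union.1 hp with hp | hp <;> rcases Finset.mem_union.1 hq with hq | hq
    · exact h.2.1.1 p hp q hq hpq
    · obtain ⟨c, hc, rfl⟩ := Finset.mem_image.1 hq
      exact absurd (by rw [← show p.1 = c from hpq]; exact hp) (hL c hc p.2)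
    · obtain ⟨c, hc, rfl⟩ := Finset.mem_image.1 hp
      exact absurd (by rw [show c = q.1 from hpq]; exact hq) (hL c hc q.2)
    · obtain ⟨c, hc, rfl⟩ := Finset.mem_image.1 hp
      obtain ⟨d, hd, rfl⟩ := Finset.mem_image.1 hq
      rw [show c = d from hpq]
  · intro p hp q hq hpt hqt hpq
    rcases Finset.mem_union.1 hp with hp | hp
    · rcases Finset.mem_union.1 hq with hq | hq
      · exact h.2.1.2 p hp q hq hpt hqt hpq
      · obtain ⟨c, hc, rfl⟩ := Finset.mem_image.1 hq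
        exact absurd hqt (hg c hc)
    · obtain ⟨c, hc, rfl⟩ := Finset.mem_image.1 hp
      exact absurd hpt (hg c hc)
  · intro p hp hpt
    rcases Finset.mem_union.1 hp with hp | hp
    · exact h.2.2 p hp hpt
    · obtain ⟨c, hc, rfl⟩ := Finset.mem_image.1 hp
      exact absurd hpt (hg c hc)

/-- density of the conditions which decide a coordinate -/
theorem dense_coord {s u : Cd} (h : Fx s u) (c : ℕ × ℕ) :
    ∃ u', u ⊆ u' ∧ Fx s u' ∧ ∃ v, (c, v) ∈ u' := by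
  by_cases hc : ∃ v, (c, v) ∈ u
  · exact ⟨u, subset_rfl, h, hc⟩
  · refine ⟨u ∪ ({c} : Finset (ℕ × ℕ)).image fun c => (c, (0 : ℕ∞)), Finset.subset_union_left,
      fx_union h {c} (fun _ => 0) ?_ (fun _ _ => ENat.zero_ne_top), 0,
      Finset.mem_union_right _ (Finset.mem_image_of_mem _ (Finset.mem_singleton_self c))⟩
    intro d hd v hv
    rw [Finset.mem_singleton.1 hd] at hv
    exact hc ⟨v, hv⟩

/-- density of the conditions which keep a promise -/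
theorem dense_prom (p : Cn) (v : Code × (ℕ → ℕ)) (hv : v ∈ p.V) (F : Set W)
    (hF : F.Finite) (hFX : F ⊆ p.X) (j : ℕ) {s u : Cd} (h : Fx s u) :
    ∃ u', u ⊆ u' ∧ Fx s u' ∧ ∃ k ≥ j, (∀ x ∈ F, x ∉ v.1 k (v.2 k)) ∧
      ∀ x ∈ bx u', x ∉ v.1 k (v.2 k) := by
  obtain ⟨l, -, hl⟩ := exists_bd u 0
  have h0 : Ok (∅ : Cd) := ⟨fun p hp => absurd hp (Finset.notMem_empty p),
    fun p hp => absurd hp (Finset.notMem_empty p)⟩
  have hb0 : Bd (∅ : Cd) l := fun p hp => absurd hp (Finset.notMem_empty p)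
  obtain ⟨k0, hk0⟩ := p.sel v hv u ∅ l h.2.1 h0 hl hb0
  obtain ⟨k, hk, hkF⟩ := p.inf v hv F hF hFX (max j k0)
  obtain ⟨u', l1, -, hu1, -, hu3, -⟩ := hk0 k ((le_max_right _ _).trans hk)
  exact ⟨u', hu1.1, fx_trans h hu1, k, (le_max_left _ _).trans hk, hkF, hu3⟩

/-- density of the conditions which are contained in a member of the row -/
theorem dense_row {R : ℕ → Set W} (hR : ∀ m, Opn (R m)) {s : Cd}
    (hs : ∀ u, Fx s u → ∀ N, ∃ m ≥ N, ∃ x ∈ bx u, x ∈ R m) (N : ℕ) {u : Cd} (h : Fx s u) :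
    ∃ u', u ⊆ u' ∧ Fx s u' ∧ ∃ m ≥ N, ∀ x ∈ bx u', x ∈ R m := by
  classical
  obtain ⟨m, hm, x, hx, hxm⟩ := hs u h N
  obtain ⟨B, hB⟩ := hR m x hxm
  let L : Finset (ℕ × ℕ) := (Finset.range B ×ˢ Finset.range B).filter fun c => ∀ v, (c, v) ∉ u
  refine ⟨u ∪ L.image fun c => (c, min (x c) (B : ℕ∞)), Finset.subset_union_left,
    fx_union h L (fun c => min (x c) (B : ℕ∞)) (fun c hc => (Finset.mem_filter.1 hc).2)
      (fun c _ => ne_top_of_le_ne_top (ENat.natCast_ne_top B) (min_le_right _ _)), m, hm,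
    fun y hy => hB y fun i hi n hn => ?_⟩
  by_cases hc : ∃ v, ((i, n), v) ∈ u
  · obtain ⟨v, hv⟩ := hc
    have h1 := hy _ (Finset.mem_union_left _ hv)
    have h2 := hx _ hv
    simp only at h1 h2
    rw [h1, h2]
  · have hL : (i, n) ∈ L := by
      refine Finset.mem_filter.2 ⟨Finset.mem_product.2 ⟨Finset.mem_range.2 hi,
        Finset.mem_range.2 hn⟩, fun v hv => hc ⟨v, hv⟩⟩
    have h1 := hy _ (Finset.mem_union_right _ (Finset.mem_image_of_mem
      (fun c => (c, min (x c) (B : ℕ∞))) hL))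
    simp only at h1
    rw [h1, min_assoc, min_self]

end C3

open C3 C4 in
/-- **Module C3** (adding a point that kills a row which is not thin). -/
theorem stE1 : StE1 := by
  classical
  intro p R hR hT
  unfold ThinRow at hT
  push Not at hT
  obtain ⟨s, hs, hs'⟩ := hT
  have hs'' : ∀ u, Fx s u → ∀ N, ∃ m ≥ N, ∃ x ∈ bx u, x ∈ R m := fun u hu N => hs' u hu N
  have hVc : Countable p.V := p.hV.to_subtype
  have hXc : Countable p.X := p.hX.to_subtype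
  obtain ⟨f, hfm, hf⟩ := generic (P := {u : Cd // Fx s u})
    (ι := (ℕ × ℕ) ⊕ ((p.V × Finset p.X × ℕ) ⊕ ℕ)) ⟨s, fx_refl hs⟩
    (fun i => match i with
      | Sum.inl c => {a | ∃ v, (c, v) ∈ a.1}
      | Sum.inr (Sum.inl (v, F, j)) => {a | ∃ k ≥ j, (∀ x ∈ F, (x : W) ∉ v.1.1 k (v.1.2 k)) ∧
          ∀ x ∈ bx a.1, x ∉ v.1.1 k (v.1.2 k)}
      | Sum.inr (Sum.inr N) => {a | ∃ m ≥ N, ∀ x ∈ bx a.1, x ∈ R m})
    (by
      rintro (c | ⟨v, F, j⟩ | N) a
      · obtain ⟨u, h1, h2, h3⟩ := dense_coord a.2 c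
        exact ⟨⟨u, h2⟩, h1, h3⟩
      · obtain ⟨u, h1, h2, k, hk, h3, h4⟩ := dense_prom p v.1 v.2
          (Subtype.val '' (F : Set p.X)) (F.finite_toSet.image _)
          (by rintro _ ⟨x, -, rfl⟩; exact x.2) j a.2
        exact ⟨⟨u, h2⟩, h1, k, hk, fun x hx => h3 _ ⟨x, hx, rfl⟩, h4⟩
      · obtain ⟨u, h1, h2, h3⟩ := dense_row hR hs'' N a.2
        exact ⟨⟨u, h2⟩, h1, h3⟩)
  obtain ⟨x, hxK, hx⟩ := exists_point (fun n => (f n).1) (fun m n hmn => hfm hmn)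
    (fun n => (f n).2.2.1) (fun c => hf (Sum.inl c))
  refine ⟨⟨p.X ∪ {x}, p.V, p.hX.union (Set.countable_singleton x), p.hV, ?_, p.sel, ?_⟩,
    ⟨Set.subset_union_left, subset_rfl⟩, x, Or.inr rfl, ?_⟩
  · rintro y (hy | rfl)
    · exact p.hK hy
    · exact hxK
  · intro v hv F hF hFX k0
    obtain ⟨n, k, hk, h1, h2⟩ :=
      hf (Sum.inr (Sum.inl (⟨v, hv⟩, hF.toFinset.subtype (· ∈ p.X), k0)))
    refine ⟨k, hk, fun y hy => ?_⟩
    rcases hFX hy with hyX | rfl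
    · exact h1 ⟨y, hyX⟩ (Finset.mem_subtype.2 (hF.mem_toFinset.2 hy))
    · exact h2 _ (hx n)
  · intro N
    obtain ⟨n, m, hm, h1⟩ := hf (Sum.inr (Sum.inr N))
    exact ⟨m, hm, h1 _ (hx n)⟩

end GO

end SymExt
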