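import Pool.Agent.Lib.MP_70f607_gt.Comb

set_option autoImplicit false

/-!
# Module C4: adding a pair of points that kills a selection
-/

namespace SymExt

namespace GO

namespace C4

/-- generic sequences -/
theorem generic {P ι : Type} [Preorder P] [Countable ι] (p0 : P) (D : ι → Set P)
    (hD : ∀ i p, ∃ q, p ≤ q ∧ q ∈ D i) : ∃ f : ℕ → P, Monotone f ∧ ∀ i, ∃ n, f n ∈ D i := by
  cases isEmpty_or_nonempty ι with
  | inl h => exact ⟨fun _ => p0, monotone_const, fun i => (h.false i).elim⟩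
  | inr h =>
    obtain ⟨e, he⟩ := exists_surjective_nat ι
    choose g hg1 hg2 using hD
    refine ⟨fun n => Nat.rec p0 (fun n p => g (e n) p) n, ?_, fun i => ?_⟩
    · exact monotone_nat_of_le_succ fun n => hg1 (e n) _
    · obtain ⟨n, rfl⟩ := he i
      exact ⟨n + 1, hg2 (e n) _⟩

theorem bx_anti {s u : Cd} (h : s ⊆ u) : bx u ⊆ bx s := fun _ hx p hp => hx p (h hp)

theorem bd_mono {s : Cd} {l l' : ℕ} (h : Bd s l) (hl : l ≤ l') : Bd s l' :=
  fun p hp => (h p hp).trans_le hl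

theorem exists_bd (s : Cd) (l : ℕ) : ∃ l', l ≤ l' ∧ Bd s l' := by
  refine ⟨max l (s.sup (fun p => p.1.1 + 1)), le_max_left _ _, fun p hp => ?_⟩
  have h : p.1.1 + 1 ≤ s.sup (fun p => p.1.1 + 1) :=
    Finset.le_sup (f := fun p : (ℕ × ℕ) × ℕ∞ => p.1.1 + 1) hp
  exact lt_of_lt_of_le (Nat.lt_succ_self _) (h.trans (le_max_right _ _))

theorem mem_infs {e : ℕ → ℕ} {L : Finset ℕ} {p : (ℕ × ℕ) × ℕ∞} :
    p ∈ infs e L ↔ ∃ j ∈ L, ((j, e j), (⊤ : ℕ∞)) = p := by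
  unfold infs
  exact Finset.mem_image

/-- adding infinite values in new columns -/
theorem ok_infs {s : Cd} {l l' : ℕ} (h : Ok s) (hl : Bd s l) (e : ℕ → ℕ) :
    Ok (s ∪ infs e (Finset.Ico l l')) := by
  have key : ∀ p ∈ s, ∀ q ∈ infs e (Finset.Ico l l'), p.1.1 ≠ q.1.1 := by
    intro p hp q hq heq
    obtain ⟨j, hj, rfl⟩ := mem_infs.1 hq
    have h1 := hl p hp
    rw [Finset.mem_Ico] at hj
    simp only at heq
    omega
  have key2 : ∀ p ∈ infs e (Finset.Ico l l'), ∀ q ∈ infs e (Finset.Ico l l'),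
      p.1.1 = q.1.1 → p = q := by
    intro p hp q hq heq
    obtain ⟨j, hj, rfl⟩ := mem_infs.1 hp
    obtain ⟨i, hi, rfl⟩ := mem_infs.1 hq
    simp only at heq
    rw [heq]
  constructor
  · intro p hp q hq hpq
    rcases Finset.mem_union.1 hp with hp | hp <;> rcases Finset.mem_union.1 hq with hq | hq
    · exact h.1 p hp q hq hpq
    · exact absurd (congrArg Prod.fst hpq) (key p hp q hq)
    · exact absurd (congrArg Prod.fst hpq).symm (key q hq p hp)
    · exact key2 p hp q hq (congrArg Prod.fst hpq)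
  · intro p hp q hq ht ht' hpq
    rcases Finset.mem_union.1 hp with hp | hp <;> rcases Finset.mem_union.1 hq with hq | hq
    · exact h.2 p hp q hq ht ht' hpq
    · exact absurd hpq (key p hp q hq)
    · exact absurd hpq.symm (key q hq p hp)
    · exact key2 p hp q hq hpq

theorem bd_infs {e : ℕ → ℕ} {l l' : ℕ} : Bd (infs e (Finset.Ico l l')) l' := by
  intro p hp
  obtain ⟨j, hj, rfl⟩ := mem_infs.1 hp
  exact (Finset.mem_Ico.1 hj).2

/-- adding a coordinate -/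
theorem ok_add {s : Cd} (h : Ok s) (c : ℕ × ℕ) :
    ∃ u, s ⊆ u ∧ Ok u ∧ (∃ v, (c, v) ∈ u) ∧ ∀ l, c.1 < l → Bd s l → Bd u l := by
  by_cases hc : ∃ v, (c, v) ∈ s
  · exact ⟨s, subset_rfl, h, hc, fun l _ hl => hl⟩
  · refine ⟨insert (c, 0) s, Finset.subset_insert _ _, ⟨?_, ?_⟩,
      ⟨0, Finset.mem_insert_self _ _⟩, ?_⟩
    · intro p hp q hq hpq
      rcases Finset.mem_insert.1 hp with rfl | hp <;> rcases Finset.mem_insert.1 hq with rfl | hq
      · rfl
      · exact absurd ⟨q.2, by rw [show c = q.1 from hpq]; exact hq⟩ hc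
      · exact absurd ⟨p.2, by rw [show c = p.1 from hpq.symm]; exact hp⟩ hc
      · exact h.1 p hp q hq hpq
    · intro p hp q hq ht ht' hpq
      rcases Finset.mem_insert.1 hp with rfl | hp
      · exact absurd ht ENat.zero_ne_top
      · rcases Finset.mem_insert.1 hq with rfl | hq
        · exact absurd ht' ENat.zero_ne_top
        · exact h.2 p hp q hq ht ht' hpq
    · intro l hcl hl p hp
      rcases Finset.mem_insert.1 hp with rfl | hp
      · exact hcl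
      · exact hl p hp

/-- the stages of the construction -/
structure Stg (h : ℕ → ℕ) where
  /-- the first condition -/
  s : Cd
  /-- the second condition -/
  t : Cd
  /-- the length -/
  l : ℕ
  hs : Ok s
  ht : Ok t
  bs : Bd s l
  bt : Bd t l
  hh : ∀ j < l, ((j, h j), (⊤ : ℕ∞)) ∈ s ∨ ((j, h j), (⊤ : ℕ∞)) ∈ t

instance (h : ℕ → ℕ) : Preorder (Stg h) where
  le a b := a.s ⊆ b.s ∧ a.t ⊆ b.t
  le_refl a := ⟨subset_rfl, subset_rfl⟩
  le_trans a b c h1 h2 := ⟨h1.1.trans h2.1, h1.2.trans h2.2⟩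

theorem le_def {h : ℕ → ℕ} {a b : Stg h} : a ≤ b ↔ a.s ⊆ b.s ∧ a.t ⊆ b.t := Iff.rfl

/-- the empty stage -/
def stg0 (h : ℕ → ℕ) : Stg h where
  s := ∅
  t := ∅
  l := 0
  hs := ⟨fun p hp => absurd hp (Finset.notMem_empty p), fun p hp => absurd hp
    (Finset.notMem_empty p)⟩
  ht := ⟨fun p hp => absurd hp (Finset.notMem_empty p), fun p hp => absurd hp
    (Finset.notMem_empty p)⟩
  bs p hp := absurd hp (Finset.notMem_empty p)
  bt p hp := absurd hp (Finset.notMem_empty p)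
  hh j hj := absurd hj (Nat.not_lt_zero j)

/-- density of the stages which decide a coordinate -/
theorem dense_coord (h : ℕ → ℕ) (c : ℕ × ℕ) (a : Stg h) :
    ∃ b : Stg h, a ≤ b ∧ (∃ v, (c, v) ∈ b.s) ∧ ∃ v, (c, v) ∈ b.t := by
  have h1 := ok_infs (l' := max a.l (c.1 + 1)) a.hs a.bs h
  obtain ⟨u, hu1, hu2, hu3, hu4⟩ := ok_add h1 c
  obtain ⟨u', hu1', hu2', hu3', hu4'⟩ := ok_add a.ht c
  have hc : c.1 < max a.l (c.1 + 1) := lt_of_lt_of_le (Nat.lt_succ_self _) (le_max_right _ _)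
  refine ⟨⟨u, u', max a.l (c.1 + 1), hu2, hu2', hu4 _ hc ?_, hu4' _ hc ?_, ?_⟩, ?_, hu3, hu3'⟩
  · intro p hp
    rcases Finset.mem_union.1 hp with hp | hp
    · exact bd_mono a.bs (le_max_left _ _) p hp
    · exact bd_infs p hp
  · exact bd_mono a.bt (le_max_left _ _)
  · intro j hj
    by_cases hjl : j < a.l
    · rcases a.hh j hjl with h2 | h2
      · exact Or.inl (hu1 (Finset.mem_union_left _ h2))
      · exact Or.inr (hu1' h2)
    · refine Or.inl (hu1 (Finset.mem_union_right _ (mem_infs.2 ⟨j, ?_, rfl⟩)))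
      exact Finset.mem_Ico.2 ⟨not_lt.1 hjl, hj⟩
  · exact ⟨Finset.subset_union_left.trans hu1, hu1'⟩

/-- density of the stages which keep a promise -/
theorem dense_prom (p : Cn) (h : ℕ → ℕ) (v : Code × (ℕ → ℕ)) (hv : v ∈ p.V) (F : Set W)
    (hF : F.Finite) (hFX : F ⊆ p.X) (j : ℕ) (a : Stg h) :
    ∃ b : Stg h, a ≤ b ∧ ∃ k ≥ j, (∀ x ∈ F, x ∉ v.1 k (v.2 k)) ∧
      (∀ x ∈ bx b.s, x ∉ v.1 k (v.2 k)) ∧ ∀ x ∈ bx b.t, x ∉ v.1 k (v.2 k) := by
  obtain ⟨k0, hk0⟩ := p.sel v hv a.s a.t a.l a.hs a.ht a.bs a.bt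
  obtain ⟨k, hk, hkF⟩ := p.inf v hv F hF hFX (max j k0)
  obtain ⟨u, l1, hl1, hu1, hu2, hu3, hu4⟩ := hk0 k ((le_max_right _ _).trans hk)
  obtain ⟨u', hu1', hu2'⟩ := hu4 h
  obtain ⟨l2, hl2, hb2⟩ := exists_bd u' l1
  refine ⟨⟨u ∪ infs h (Finset.Ico l1 l2), u', l2, ok_infs hu1.2.1 hu2 h, hu1'.2.1, ?_, hb2, ?_⟩,
    ⟨hu1.1.trans Finset.subset_union_left, Finset.subset_union_left.trans hu1'.1⟩, k,
    (le_max_left _ _).trans hk, hkF, ?_, hu2'⟩
  · intro q hq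
    rcases Finset.mem_union.1 hq with hq | hq
    · exact bd_mono hu2 hl2 q hq
    · exact bd_infs q hq
  · intro i hi
    by_cases hil : i < a.l
    · rcases a.hh i hil with h2 | h2
      · exact Or.inl (Finset.mem_union_left _ (hu1.1 h2))
      · exact Or.inr (hu1'.1 (Finset.mem_union_left _ h2))
    · by_cases hil1 : i < l1
      · refine Or.inr (hu1'.1 (Finset.mem_union_right _ (mem_infs.2 ⟨i, ?_, rfl⟩)))
        exact Finset.mem_Ico.2 ⟨not_lt.1 hil, hil1⟩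
      · refine Or.inl (Finset.mem_union_right _ (mem_infs.2 ⟨i, ?_, rfl⟩))
        exact Finset.mem_Ico.2 ⟨not_lt.1 hil1, hi⟩
  · intro x hx
    exact hu3 x (bx_anti Finset.subset_union_left hx)

/-- the point given by an increasing sequence of conditions -/
theorem exists_point (s : ℕ → Cd) (hm : ∀ m n, m ≤ n → s m ⊆ s n) (hok : ∀ n, Ok (s n))
    (hd : ∀ c, ∃ n v, (c, v) ∈ s n) : ∃ x ∈ K, ∀ n, x ∈ bx (s n) := by
  choose N x hx using hd
  have key : ∀ n, x ∈ bx (s n) := by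
    intro n p hp
    have h1 := hm _ _ (le_max_left n (N p.1)) hp
    have h2 := hm _ _ (le_max_right n (N p.1)) (hx p.1)
    exact congrArg Prod.snd ((hok _).1 _ h2 _ h1 rfl)
  refine ⟨x, ?_, key⟩
  intro j n n' h1 h2
  have h3 := hx (j, n)
  have h4 := hx (j, n')
  rw [h1] at h3
  rw [h2] at h4
  have h5 := hm _ _ (le_max_left (N (j, n)) (N (j, n'))) h3
  have h6 := hm _ _ (le_max_right (N (j, n)) (N (j, n'))) h4
  have h7 := (hok _).2 _ h5 _ h6 rfl rfl rfl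
  exact congrArg (fun p : (ℕ × ℕ) × ℕ∞ => p.1.2) h7

end C4

open C4 in
/-- Module C4 (adding a pair of points that kills the selection `h`). -/
theorem stD1 : StD1 := by
  classical
  intro p h
  have hVc : Countable p.V := p.hV.to_subtype
  have hXc : Countable p.X := p.hX.to_subtype
  obtain ⟨f, hfm, hf⟩ := generic (ι := (ℕ × ℕ) ⊕ (p.V × Finset p.X × ℕ)) (stg0 h)
    (fun i => match i with
      | Sum.inl c => {a | (∃ v, (c, v) ∈ a.s) ∧ ∃ v, (c, v) ∈ a.t}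
      | Sum.inr (v, F, j) => {a | ∃ k ≥ j, (∀ x ∈ F, (x : W) ∉ v.1.1 k (v.1.2 k)) ∧
          (∀ x ∈ bx a.s, x ∉ v.1.1 k (v.1.2 k)) ∧ ∀ x ∈ bx a.t, x ∉ v.1.1 k (v.1.2 k)})
    (by
      rintro (c | ⟨v, F, j⟩) a
      · exact dense_coord h c a
      · obtain ⟨b, hab, k, hk, h1, h2, h3⟩ := dense_prom p h v.1 v.2
          (Subtype.val '' (F : Set p.X)) (F.finite_toSet.image _)
          (by rintro _ ⟨x, -, rfl⟩; exact x.2) j a
        exact ⟨b, hab, k, hk, fun x hx => h1 _ ⟨x, hx, rfl⟩, h2, h3⟩)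
  have hc : ∀ c, ∃ n, (∃ v, (c, v) ∈ (f n).s) ∧ ∃ v, (c, v) ∈ (f n).t := fun c => hf (Sum.inl c)
  obtain ⟨x, hxK, hx⟩ := exists_point (fun n => (f n).s) (fun m n hmn => (hfm hmn).1)
    (fun n => (f n).hs) (fun c => by
      obtain ⟨n, ⟨v, hv⟩, -⟩ := hc c
      exact ⟨n, v, hv⟩)
  obtain ⟨x', hxK', hx'⟩ := exists_point (fun n => (f n).t) (fun m n hmn => (hfm hmn).2)
    (fun n => (f n).ht) (fun c => by
      obtain ⟨n, -, v, hv⟩ := hc c
      exact ⟨n, v, hv⟩)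
  refine ⟨⟨p.X ∪ {x, x'}, p.V, p.hX.union (Set.toFinite _).countable, p.hV, ?_, p.sel, ?_⟩,
    ⟨Set.subset_union_left, subset_rfl⟩, x, Or.inr (Or.inl rfl), x', Or.inr (Or.inr rfl), ?_⟩
  · rintro y (hy | rfl | rfl)
    · exact p.hK hy
    · exact hxK
    · exact hxK'
  · intro v hv F hF hFX k0
    obtain ⟨n, k, hk, h1, h2, h3⟩ := hf (Sum.inr (⟨v, hv⟩, hF.toFinset.subtype (· ∈ p.X), k0))
    refine ⟨k, hk, fun y hy => ?_⟩
    rcases hFX hy with hyX | rfl | rfl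
    · exact h1 ⟨y, hyX⟩ (Finset.mem_subtype.2 (hF.mem_toFinset.2 hy))
    · exact h2 _ (hx n)
    · exact h3 _ (hx' n)
  · intro k
    obtain ⟨n, ⟨v, hv⟩, -⟩ := hc (k, 0)
    have hkl : k < (f n).l := (f n).bs _ hv
    rcases (f n).hh k hkl with h1 | h1
    · exact Or.inl (hx n _ h1)
    · exact Or.inr (hx' n _ h1)

end GO

end SymExt
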