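import Pool.Agent.Lib.MP_70f607_gt.Comb

set_option autoImplicit false

/-!
# Module C5: a code is killed by a point, or a selection is promised; countable closure
-/

namespace SymExt

namespace GO

theorem stD2 (h1 : StE1) (h2 : StSel) : StD2 := by
  intro p O hO
  by_cases hthin : ∀ k, ThinRow (O k)
  · by_cases hx : ∀ x ∈ p.X, ∀ k, ∃ N, ∀ m ≥ N, x ∉ O k m
    · right
      obtain ⟨h, hS, hh⟩ := h2 O hthin p.X p.hX hx
      refine ⟨⟨p.X, insert (O, h) p.V, p.hX, p.hV.insert _, p.hK, ?_, ?_⟩,
        ⟨subset_rfl, Set.subset_insert _ _⟩, h, Set.mem_insert _ _⟩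
      · intro v hv
        rcases hv with rfl | hv
        · exact hS
        · exact p.sel v hv
      · intro v hv F hF hFX k0
        rcases hv with rfl | hv
        · have hex : ∀ x ∈ F, ∃ k0, ∀ k ≥ k0, x ∉ O k (h k) := fun x hx => hh x (hFX hx)
          choose! f hf using hex
          obtain ⟨b, hb⟩ := (hF.image f).bddAbove
          refine ⟨max b k0, le_max_right _ _, fun x hx => ?_⟩
          exact hf x hx _ ((hb (Set.mem_image_of_mem f hx)).trans (le_max_left _ _))
        · exact p.inf v hv F hF hFX k0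
    · left
      push Not at hx
      obtain ⟨x, hxp, k, hk⟩ := hx
      exact ⟨p, le_refl p, x, hxp, k, hk⟩
  · left
    push Not at hthin
    obtain ⟨k, hk⟩ := hthin
    obtain ⟨q, hq, x, hx, h⟩ := h1 p (O k) (hO k) hk
    exact ⟨q, hq, x, hx, k, h⟩

theorem stCl : StCl := by
  intro p hp
  have hX : Monotone fun n => (p n).X := monotone_nat_of_le_succ fun n => (hp n).1
  have hV : Monotone fun n => (p n).V := monotone_nat_of_le_succ fun n => (hp n).2
  refine ⟨⟨⋃ n, (p n).X, ⋃ n, (p n).V, Set.countable_iUnion fun n => (p n).hX,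
    Set.countable_iUnion fun n => (p n).hV, Set.iUnion_subset fun n => (p n).hK, ?_, ?_⟩,
    fun n => ⟨Set.subset_iUnion (fun n => (p n).X) n, Set.subset_iUnion (fun n => (p n).V) n⟩⟩
  · intro v hv
    obtain ⟨n, hn⟩ := Set.mem_iUnion.1 hv
    exact (p n).sel v hn
  · intro v hv F hF hFX k0
    obtain ⟨n, hn⟩ := Set.mem_iUnion.1 hv
    have hex : ∀ x ∈ F, ∃ m, x ∈ (p m).X := fun x hx => Set.mem_iUnion.1 (hFX hx)
    choose! f hf using hex
    obtain ⟨b, hb⟩ := (hF.image f).bddAbove
    have hFb : F ⊆ (p (max b n)).X := fun x hx =>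
      hX ((hb (Set.mem_image_of_mem f hx)).trans (le_max_left _ _)) (hf x hx)
    exact (p (max b n)).inf v (hV (le_max_right b n) hn) F hF hFb k0

end GO

end SymExt
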