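import Mathlib

/-!
# The combinatorics of the forcing: definitions and statements

`W` is the set of all `x : ω × ω → ω + 1`, with the topology whose basic neighbourhoods of `x`
fix the values of `min (x c) B` for `c` in a finite square.  Columns are the sets `{j} × ω`.
-/

namespace SymExt

namespace GO

/-- Double sequences with values in `ω + 1`. -/
abbrev W : Type := ℕ × ℕ → ℕ∞

/-- Points with at most one infinite value in every column. -/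
def K : Set W := {x | ∀ j n n', x (j, n) = ⊤ → x (j, n') = ⊤ → n = n'}

/-- Open sets. -/
def Opn (O : Set W) : Prop :=
  ∀ x ∈ O, ∃ B : ℕ, ∀ y : W,
    (∀ i < B, ∀ n < B, min (y (i, n)) (B : ℕ∞) = min (x (i, n)) (B : ℕ∞)) → y ∈ O

/-- Finite conditions (finite partial functions from `ω × ω` to `ω + 1`). -/
abbrev Cd : Type := Finset ((ℕ × ℕ) × ℕ∞)

/-- The set of the points that extend a finite condition. -/
def bx (s : Cd) : Set W := {x | ∀ p ∈ s, x p.1 = p.2}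

/-- `s` is a function with at most one infinite value in every column. -/
def Ok (s : Cd) : Prop :=
  (∀ p ∈ s, ∀ q ∈ s, p.1 = q.1 → p = q) ∧
    ∀ p ∈ s, ∀ q ∈ s, p.2 = ⊤ → q.2 = ⊤ → p.1.1 = q.1.1 → p = q

/-- `u` extends `s` by finite values only. -/
def Fx (s u : Cd) : Prop := s ⊆ u ∧ Ok u ∧ ∀ p ∈ u, p.2 = ⊤ → p ∈ s

/-- The columns of `s` are below `l`. -/
def Bd (s : Cd) (l : ℕ) : Prop := ∀ p ∈ s, p.1.1 < l

/-- The condition with the value `∞` at `(j, e j)`, `j ∈ L`. -/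
def infs (e : ℕ → ℕ) (L : Finset ℕ) : Cd := L.image fun j => ((j, e j), (⊤ : ℕ∞))

/-- Codes: `O k m` is the complement of the `m`-th member of the `k`-th cover. -/
abbrev Code : Type := ℕ → ℕ → Set W

/-- Thin rows: densely many finite conditions avoid almost all members of the row `R`. -/
def ThinRow (R : ℕ → Set W) : Prop :=
  ∀ s, Ok s → ∃ u, Fx s u ∧ ∃ N, ∀ m ≥ N, ∀ x ∈ bx u, x ∉ R m

/-- The selection `h` works for the code `O` on generic points and generic pairs of points. -/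
def Sel (O : Code) (h : ℕ → ℕ) : Prop :=
  ∀ s s' l, Ok s → Ok s' → Bd s l → Bd s' l → ∃ k0, ∀ k ≥ k0, ∃ u l1, l ≤ l1 ∧ Fx s u ∧ Bd u l1 ∧
    (∀ x ∈ bx u, x ∉ O k (h k)) ∧
    ∀ e : ℕ → ℕ, ∃ u', Fx (s' ∪ infs e (Finset.Ico l l1)) u' ∧ ∀ x ∈ bx u', x ∉ O k (h k)

/-- Module C1 (uniformity lemma). -/
def StUni : Prop := ∀ R : ℕ → Set W, ThinRow R → ∀ s, Ok s → ∀ L : Finset ℕ,
  (∀ p ∈ s, p.1.1 ∉ L) → ∃ N, ∀ m ≥ N, ∀ e : ℕ → ℕ, ∃ u, Fx (s ∪ infs e L) u ∧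
    ∀ x ∈ bx u, x ∉ R m

/-- Module C2 (choice of the selection for a code with thin rows). -/
def StSel : Prop := ∀ O : Code, (∀ k, ThinRow (O k)) → ∀ Y : Set W, Y.Countable →
  (∀ x ∈ Y, ∀ k, ∃ N, ∀ m ≥ N, x ∉ O k m) →
  ∃ h, Sel O h ∧ ∀ x ∈ Y, ∃ k0, ∀ k ≥ k0, x ∉ O k (h k)

/-- The forcing conditions: countable sets of points and countable sets of promises. -/
structure Cn where
  /-- the points -/
  X : Set W
  /-- the promises -/
  V : Set (Code × (ℕ → ℕ))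
  hX : X.Countable
  hV : V.Countable
  hK : X ⊆ K
  sel : ∀ v ∈ V, Sel v.1 v.2
  inf : ∀ v ∈ V, ∀ F : Set W, F.Finite → F ⊆ X → ∀ k0, ∃ k ≥ k0, ∀ x ∈ F, x ∉ v.1 k (v.2 k)

instance : Preorder Cn where
  le p q := q.X ⊆ p.X ∧ q.V ⊆ p.V
  le_refl p := ⟨subset_rfl, subset_rfl⟩
  le_trans p q r h1 h2 := ⟨h2.1.trans h1.1, h2.2.trans h1.2⟩

theorem Cn.le_def {p q : Cn} : p ≤ q ↔ q.X ⊆ p.X ∧ q.V ⊆ p.V := Iff.rfl

/-- Module C3 (adding a point that kills a row which is not thin). -/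
def StE1 : Prop := ∀ p : Cn, ∀ R : ℕ → Set W, (∀ m, Opn (R m)) → ¬ ThinRow R →
  ∃ q ≤ p, ∃ x ∈ q.X, ∀ N, ∃ m ≥ N, x ∈ R m

/-- Module C4 (adding a pair of points that kills the selection `h`). -/
def StD1 : Prop := ∀ p : Cn, ∀ h : ℕ → ℕ,
  ∃ q ≤ p, ∃ x ∈ q.X, ∃ x' ∈ q.X, ∀ k, x (k, h k) = ⊤ ∨ x' (k, h k) = ⊤

/-- Module C5 (a code is killed by a point, or a selection is promised). -/
def StD2 : Prop := ∀ p : Cn, ∀ O : Code, (∀ k m, Opn (O k m)) →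
  (∃ q ≤ p, ∃ x ∈ q.X, ∃ k, ∀ N, ∃ m ≥ N, x ∈ O k m) ∨ ∃ q ≤ p, ∃ h, (O, h) ∈ q.V

/-- Module C5 (countable closure). -/
def StCl : Prop := ∀ p : ℕ → Cn, (∀ n, p (n + 1) ≤ p n) → ∃ q, ∀ n, q ≤ p n

end GO

end SymExt
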