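import Pool.Agent.Lib.MP_694cb9_lc.Defs

/-!
# Selection principles for subspaces of the Baire space in transitive models of ZFC

`Fml`, `Sat`, `IsZF` (transitive model of ZF) and `natSet` (the natural number `n` as a set) are
in `Pool.Agent.Lib.MP_694cb9_lc.Defs`.  All notions below are the notions of the transitive
model `N`: the sets, spaces, covers, sequences and selections that are considered are elements
of `N`.
-/

namespace SymExt

universe u

/-- The axiom of choice in `N`: for every family `A` in `N` there is a function `f` in `N` that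
chooses an element of every nonempty member of `A`. -/
def ChoiceIn (N : Set ZFSet.{u}) : Prop :=
  ∀ A ∈ N, ∃ f ∈ N, (∀ z ∈ f, ∃ a ∈ A, ∃ b ∈ a, z = ZFSet.pair a b) ∧
    ∀ a ∈ A, a ≠ ∅ → ∃! b, ZFSet.pair a b ∈ f

/-- `N` is a transitive model of ZFC. -/
structure IsZFC (N : Set ZFSet.{u}) : Prop where
  /-- the axioms of ZF -/
  zf : IsZF N
  /-- the axiom of choice -/
  choice : ChoiceIn N

/-- The set `x` is (the graph of) a function from `ω` to `ω`, i.e. a point of the Baire space. -/
def IsPoint (x : ZFSet.{u}) : Prop :=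
  ∃ f : ℕ → ℕ, ∀ z, z ∈ x ↔ ∃ n : ℕ, z = ZFSet.pair (natSet n) (natSet (f n))

/-- The functions `x`, `y` have the same values at all arguments below `n`. -/
def AgreeTo (n : ℕ) (x y : ZFSet.{u}) : Prop :=
  ∀ i < n, ∀ j : ℕ, ZFSet.pair (natSet i) (natSet j) ∈ x ↔ ZFSet.pair (natSet i) (natSet j) ∈ y

/-- `O` is an open subset of the subspace `X` of the Baire space. -/
def OpenSub (X O : ZFSet.{u}) : Prop :=
  O ⊆ X ∧ ∀ x ∈ O, ∃ n : ℕ, ∀ y ∈ X, AgreeTo n x y → y ∈ O

/-- `O` is a closed subset of the subspace `X` of the Baire space. -/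
def ClosedSub (X O : ZFSet.{u}) : Prop :=
  O ⊆ X ∧ ∀ x ∈ X, x ∉ O → ∃ n : ℕ, ∀ y ∈ X, AgreeTo n x y → y ∉ O

/-- `O` is a clopen subset of the subspace `X` of the Baire space. -/
def ClopenSub (X O : ZFSet.{u}) : Prop := OpenSub X O ∧ ClosedSub X O

/-- The family `A` of subsets of `X` is a `γ`-cover of `X`: it is infinite, `X` is not a member,
and every point of `X` belongs to all but finitely many members. -/
def GammaCover (X : ZFSet.{u}) (A : Set ZFSet.{u}) : Prop :=
  A.Infinite ∧ X ∉ A ∧ ∀ x ∈ X, {O | O ∈ A ∧ x ∉ O}.Finite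

/-- The family `A` of subsets of `X` is an `ω`-cover of `X`: `X` is not a member, and every finite
subset of `X` is contained in a member. -/
def OmegaCover (X : ZFSet.{u}) (A : Set ZFSet.{u}) : Prop :=
  X ∉ A ∧ ∀ F : Set ZFSet.{u}, F.Finite → (∀ x ∈ F, x ∈ X) → ∃ O ∈ A, ∀ x ∈ F, x ∈ O

/-- The sequence `F` belongs to `N`. -/
def SeqIn (N : Set ZFSet.{u}) (F : ℕ → ZFSet.{u}) : Prop :=
  ∃ f ∈ N, ∀ z, z ∈ f ↔ ∃ n : ℕ, z = ZFSet.pair (natSet n) (F n)

/-- The selection principle `S₁(Γ, Ω)` for the space `X` in the model `N`, restricted to covers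
whose members have the property `P`: for every sequence (in `N`) of `γ`-covers `A n` of `X` whose
members have the property `P` there is a sequence (in `N`) of members `U n ∈ A n` such that
`{U n | n}` is an `ω`-cover of `X`. -/
def SelOne (N : Set ZFSet.{u}) (X : ZFSet.{u}) (P : ZFSet.{u} → Prop) : Prop :=
  ∀ A : ℕ → ZFSet.{u}, SeqIn N A → (∀ n, GammaCover X {O | O ∈ A n} ∧ ∀ O ∈ A n, P O) →
    ∃ U : ℕ → ZFSet.{u}, SeqIn N U ∧ (∀ n, U n ∈ A n) ∧ OmegaCover X (Set.range U)

end SymExt
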