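import Pool.Agent.Lib.MP_70f607_gt.Force

set_option autoImplicit false

/-!
# Module F1: selections are killed, promises are kept
-/

namespace SymExt

namespace GO

namespace F1

theorem le_of_forall {b₁ b₂ : B} (h : ∀ p : Cn, eB p ≤ b₁ → eB p ≤ b₂) : b₁ ≤ b₂ := by
  by_contra hcon
  have h1 : b₁ ⊓ b₂ᶜ ≠ ⊥ := fun h' => hcon (by
    rw [← disjoint_iff, disjoint_compl_right_iff] at h'
    exact h')
  obtain ⟨p, hp⟩ := dense_eB.dense _ h1
  exact dense_eB.not_both (h p (hp.trans inf_le_left)) (hp.trans inf_le_right)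

theorem le_bX {p : Cn} {x : W} (hx : x ∈ p.X) : eB p ≤ bX x :=
  le_iSup (fun p : {p : Cn // x ∈ p.X} => eB p.1) ⟨p, hx⟩

/-- elements of the preorder below an element and in a set of conditions -/
theorem exists_of_le {S : Cn → Prop} {p : Cn} (h : eB p ≤ ⨆ q : {q : Cn // S q}, eB q.1) :
    ∃ r ≤ p, ∃ q, S q ∧ r ≤ q := by
  obtain ⟨r, hr, q, hq⟩ := dense_eB.exists_iSup h
  have h1 : eB r ⊓ eB q.1 ≠ ⊥ := by
    rw [inf_eq_left.2 hq]
    exact dense_eB.ne_bot r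
  obtain ⟨t, ht1, ht2⟩ := dense_eB.compat _ _ h1
  exact ⟨t, ht1.trans hr, q.1, q.2, ht2⟩

theorem exists_sub {F : Set W} (hF : F.Finite) :
    ∀ p : Cn, (∀ x ∈ F, eB p ≤ bX x) → ∃ q ≤ p, F ⊆ q.X := by
  induction F, hF using Set.Finite.induction_on with
  | empty => exact fun p _ => ⟨p, le_rfl, Set.empty_subset _⟩
  | @insert a s _ _ ih =>
    intro p hp
    obtain ⟨q, hq, hs⟩ := ih p fun x hx => hp x (Set.mem_insert_of_mem _ hx)
    have h1 : eB q ≤ bX a := (dense_eB.mono _ _ hq).trans (hp a (Set.mem_insert _ _))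
    obtain ⟨r, hr, t, ht, hrt⟩ := exists_of_le h1
    exact ⟨r, hr.trans hq, Set.insert_subset (hrt.1 ht) (hs.trans hr.1)⟩

end F1

open F1

/-- Module F1. -/
theorem stR1456 (h1 : StD1) (h2 : StCl) (h3 : StDist.{0, 0, 0}) :
    StR1 ∧ StR4 ∧ StR5 ∧ StR6 := by
  refine ⟨fun g => ?_, fun k n => ?_, fun O h F hF hne => ?_, fun x hx => ?_⟩
  · refine le_of_forall fun p hp => ?_
    have hd := h3 Cn B eB dense_eB h2 ℕ (fun _ => ℕ) fun k n => bG g k n
    refine dense_eB.le_of_dense fun q hq => ?_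
    obtain ⟨q', hq', h, hh⟩ :=
      dense_eB.exists_iSup ((dense_eB.mono _ _ hq).trans (hp.trans hd))
    obtain ⟨r, hr, x, hx, x', hx', hk⟩ := h1 q' h
    refine ⟨r, hr.trans hq', le_trans ?_ (le_iSup (bR1 g) ⟨(h, x, x'), hk⟩)⟩
    exact le_inf ((dense_eB.mono _ _ hr).trans hh) (le_inf (le_bX hx) (le_bX hx'))
  · refine dense_eB.eq_top_of_dense fun q => ?_
    obtain ⟨r, hr, x, hx, x', hx', hk⟩ := h1 q fun _ => n
    refine ⟨r, hr, ?_⟩
    rcases hk k with h | h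
    · exact (le_bX hx).trans (le_iSup (fun x : {x : W // x (k, n) = ⊤} => bX x.1) ⟨x, h⟩)
    · exact (le_bX hx').trans (le_iSup (fun x : {x : W // x (k, n) = ⊤} => bX x.1) ⟨x', h⟩)
  · obtain ⟨p, hp⟩ := dense_eB.dense _ hne
    obtain ⟨q, hq, hs⟩ := exists_sub hF p fun x hx =>
      hp.trans (inf_le_right.trans (iInf_le (fun x : {x // x ∈ F} => bX x.1) ⟨x, hx⟩))
    have h4 : eB q ≤ bProm O h := (dense_eB.mono _ _ hq).trans (hp.trans inf_le_left)
    obtain ⟨r, hr, t, ht, hrt⟩ := exists_of_le h4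
    obtain ⟨k, -, hk⟩ := r.inf (O, h) (hrt.2 ht) F hF (hs.trans hr.1) 0
    exact ⟨k, hk⟩
  · by_contra hcon
    apply hx
    have : IsEmpty {p : Cn // x ∈ p.X} := ⟨fun p => hcon (p.1.hK p.2)⟩
    exact iSup_of_empty _

end GO

end SymExt
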