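import Pool.Agent.Lib.MP_70f607_gt.Force

set_option autoImplicit false

/-! # Module F2: infinite families have infinite sequences of different members -/

namespace SymExt

namespace GO

open Name

namespace F2Aux

/-- The value of: the names of the list are pairwise different. -/
noncomputable def dif : List (Name B) → B
  | [] => ⊤
  | V :: L => dif L ⊓ ⨅ A : {A // A ∈ L}, (beq V A.1)ᶜ

/-- The value of: `φ k` is infinite, and the list consists of different members. -/
noncomputable def bb (φ : Name B) (k : ℕ) (L : List (Name B)) : B :=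
  bInf φ k ⊓ allK φ k L ⊓ dif L

/-- The value of: `G` lists different members of `φ k`. -/
noncomputable def en (φ : Name B) (k : ℕ) (G : ℕ → Name B) : B :=
  (⨅ m, inK φ k (G m)) ⊓ ⨅ m, ⨅ m' : {m' // m' < m}, (beq (G m) (G m'.1))ᶜ

lemma allK_cons (φ : Name B) (k : ℕ) (V : Name B) (L : List (Name B)) :
    inK φ k V ⊓ allK φ k L ≤ allK φ k (V :: L) := by
  unfold allK
  refine le_iInf fun A => ?_
  obtain ⟨A, hA⟩ := A
  rcases List.mem_cons.1 hA with h | h
  · subst h
    exact inf_le_left
  · exact inf_le_right.trans (iInf_le (fun V : {V // V ∈ L} => inK φ k V.1) ⟨A, h⟩)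

lemma step (φ : Name B) (k : ℕ) (L : List (Name B)) :
    bb φ k L ≤ ⨆ t' : {t' // ∃ V, t' = V :: L}, bb φ k t'.1 := by
  have h2 : bb φ k L ≤ bInf φ k := inf_le_left.trans inf_le_left
  have h3 : bb φ k L ≤ allK φ k L := inf_le_left.trans inf_le_right
  have h1 : bb φ k L ≤ newK φ k L := by
    have h4 : bInf φ k ≤ allK φ k L ⇨ newK φ k L := iInf_le _ L
    exact (le_inf (h2.trans h4) h3).trans himp_inf_le
  have h5 : bb φ k L ≤ bb φ k L ⊓ newK φ k L := le_inf le_rfl h1
  refine h5.trans ?_
  unfold newK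
  rw [inf_iSup_eq]
  refine iSup_le fun V => ?_
  refine le_trans ?_
    (le_iSup (fun t' : {t' // ∃ V, t' = V :: L} => bb φ k t'.1) ⟨V :: L, V, rfl⟩)
  refine le_inf (le_inf (inf_le_left.trans h2) ?_) ?_
  · refine le_trans ?_ (allK_cons φ k V L)
    exact le_inf (inf_le_right.trans inf_le_left) (inf_le_left.trans h3)
  · exact le_inf (inf_le_left.trans inf_le_right) (inf_le_right.trans inf_le_right)

lemma path (φ : Name B) (k : ℕ) (π : ℕ → List (Name B)) (G : ℕ → Name B)
    (hG : ∀ n, π (n + 1) = G n :: π n) : ⨅ n, bb φ k (π n) ≤ en φ k G := by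
  have hmem : ∀ m m', m' < m → G m' ∈ π m := by
    intro m
    induction m with
    | zero => intro m' h; omega
    | succ m ih =>
      intro m' h
      rw [hG]
      rcases Nat.lt_succ_iff_lt_or_eq.1 h with h1 | h1
      · exact List.mem_cons_of_mem _ (ih m' h1)
      · rw [h1]
        exact List.mem_cons_self
  refine le_inf (le_iInf fun m => ?_) (le_iInf fun m => le_iInf fun m' => ?_)
  · refine (iInf_le _ (m + 1)).trans ?_
    refine (inf_le_left.trans inf_le_right).trans ?_
    exact iInf_le (fun V : {V // V ∈ π (m + 1)} => inK φ k V.1)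
      ⟨G m, hmem (m + 1) m (Nat.lt_succ_self m)⟩
  · refine (iInf_le _ (m + 1)).trans ?_
    refine inf_le_right.trans ?_
    rw [hG]
    refine inf_le_right.trans ?_
    exact iInf_le (fun A : {A // A ∈ π m} => (beq (G m) A.1)ᶜ) ⟨G m'.1, hmem m m'.1 m'.2⟩

lemma one (h1 : StCl) (h2 : StTree.{0, 0, 1}) (φ : Name B) (k : ℕ) :
    bInf φ k ≤ ⨆ G : ℕ → Name B, en φ k G := by
  have h := h2 Cn B eB dense_eB h1 (List (Name B)) (fun L L' => ∃ V, L' = V :: L) (bb φ k) []
    (step φ k)
  have h0 : bInf φ k ≤ bb φ k [] := by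
    refine le_inf (le_inf le_rfl ?_) le_top
    unfold allK
    refine le_iInf fun A => ?_
    exact absurd A.2 (List.not_mem_nil)
  refine (h0.trans h).trans (iSup_le fun π => ?_)
  have hπ : ∀ n, ∃ V, π.1 (n + 1) = V :: π.1 n := π.2.2
  choose G hG using hπ
  exact (path φ k π.1 G hG).trans (le_iSup (en φ k) G)

end F2Aux

open F2Aux in
/-- Module F2: infinite families have infinite sequences of different members. -/
theorem stR2 (h1 : StCl) (h2 : StTree.{0, 0, 1}) (h3 : StDist.{0, 0, 1}) : StR2 := by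
  intro φ
  have h := h3 Cn B eB dense_eB h1 ℕ (fun _ => ℕ → Name B) (fun k G => en φ k G)
  refine (le_trans (iInf_mono fun k => one h1 h2 φ k) h).trans (iSup_le fun H => ?_)
  obtain ⟨F, hF⟩ : ∃ F : ℕ → Name B, ∀ k m, F (Nat.pair k m) = H k m :=
    ⟨fun j => H j.unpair.1 j.unpair.2, fun k m => by simp only [Nat.unpair_pair]⟩
  refine le_trans ?_ (le_iSup (bEnum φ) F)
  refine le_inf (le_iInf fun k => le_iInf fun m => ?_)
    (le_iInf fun k => le_iInf fun m => le_iInf fun m' => ?_)
  · rw [hF]
    exact (iInf_le _ k).trans (inf_le_left.trans (iInf_le _ m))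
  · rw [hF, hF]
    exact (iInf_le _ k).trans (inf_le_right.trans ((iInf_le _ m).trans (iInf_le _ m')))

end GO

end SymExt
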