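import Pool.Agent.Lib.MP_70f607_gt.Force

/-!
# Module F3: codes of closed sets can be decided
-/

set_option autoImplicit false

namespace SymExt

namespace GO

namespace F3

theorem le_iff_of_min {a b : ℕ∞} {N i : ℕ} (hi : i < N) (h : min a (N : ℕ∞) = min b (N : ℕ∞)) :
    a ≤ (i : ℕ∞) ↔ b ≤ (i : ℕ∞) := by
  have key : ∀ a : ℕ∞, a ≤ (i : ℕ∞) ↔ min a (N : ℕ∞) ≤ (i : ℕ∞) := by
    intro a
    rw [min_le_iff]
    constructor
    · exact Or.inl
    · rintro (h | h)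
      · exact h
      · exact absurd (Nat.cast_le.1 h) (not_le.2 hi)
  rw [key a, key b, h]

theorem enc_congr {x y : W} {N : ℕ}
    (h : ∀ i < N, ∀ n < N, min (y (i, n)) (N : ℕ∞) = min (x (i, n)) (N : ℕ∞)) {j : ℕ}
    (hj : j < N) : enc y j = enc x j := by
  have h1 : j.unpair.1 < N := (Nat.unpair_left_le j).trans_lt hj
  have h2 : j.unpair.2 < N := (Nat.unpair_right_le j).trans_lt hj
  have h3 : j.unpair.2.unpair.1 < N := (Nat.unpair_left_le _).trans_lt h2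
  have h4 : j.unpair.2.unpair.2 < N := (Nat.unpair_right_le _).trans_lt h2
  have h5 := le_iff_of_min h4 (h _ h1 _ h3)
  unfold enc
  by_cases h6 : y (j.unpair.1, j.unpair.2.unpair.1) ≤ (j.unpair.2.unpair.2 : ℕ∞)
  · rw [if_pos h6, if_pos (h5.1 h6)]
  · rw [if_neg h6, if_neg fun h7 => h6 (h5.2 h7)]

theorem opn_Oc (c : ℕ → Set (List ℕ)) (k m : ℕ) : Opn (Oc c k m) := by
  rintro x ⟨σ, hσ, hx⟩
  refine ⟨σ.length, fun y hy => ⟨σ, hσ, ?_⟩⟩
  unfold Pre at hx ⊢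
  refine Eq.trans (List.map_congr_left fun j hj => ?_) hx
  exact enc_congr hy (List.mem_range.1 hj)

theorem iSup_match (h1 : StCl) (h3 : StDist.{0, 0, 0}) (F : ℕ → Name B) :
    ⨆ c, bMatch F c = ⊤ := by
  have hd := h3 Cn B eB dense_eB h1 (ℕ × List ℕ) (fun _ => Bool)
    (fun j t => cond t (bD (F j.1) j.2) (bD (F j.1) j.2)ᶜ)
  have hl : (⨅ j : ℕ × List ℕ, ⨆ t : Bool, cond t (bD (F j.1) j.2) (bD (F j.1) j.2)ᶜ) = ⊤ := by
    rw [iInf_eq_top]
    intro j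
    rw [eq_top_iff, ← sup_compl_eq_top (x := bD (F j.1) j.2)]
    exact sup_le (le_iSup (fun t : Bool => cond t (bD (F j.1) j.2) (bD (F j.1) j.2)ᶜ) true)
      (le_iSup (fun t : Bool => cond t (bD (F j.1) j.2) (bD (F j.1) j.2)ᶜ) false)
  rw [hl] at hd
  rw [eq_top_iff]
  refine hd.trans (iSup_le fun h => ?_)
  refine le_iSup_of_le (fun j => {σ | h (j, σ) = true}) ?_
  refine le_iInf fun j => le_iInf fun σ => (iInf_le _ (j, σ)).trans ?_
  by_cases h5 : h (j, σ) = true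
  · rw [if_pos (show σ ∈ {σ | h (j, σ) = true} from h5), h5]
    exact le_rfl
  · rw [if_neg (show ¬ σ ∈ {σ | h (j, σ) = true} from h5), Bool.eq_false_of_not_eq_true h5]
    exact le_rfl

end F3

open F3

theorem stR3 (h1 : StCl) (h2 : StD2) (h3 : StDist.{0, 0, 0}) : StR3 := by
  intro F
  refine dense_eB.eq_top_of_dense fun p => ?_
  have hp : eB p ≤ ⨆ c, bMatch F c := by
    rw [iSup_match h1 h3 F]
    exact le_top
  obtain ⟨q, hq, c, hc⟩ := dense_eB.exists_iSup hp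
  rcases h2 q (Oc c) (opn_Oc c) with ⟨r, hr, x, hx, k, hk⟩ | ⟨r, hr, h, hh⟩
  · refine ⟨r, hr.trans hq, le_sup_of_le_left ?_⟩
    refine le_iSup_of_le (⟨(c, x, k), hk⟩ : IR3) ?_
    refine le_inf ((dense_eB.mono _ _ hr).trans hc) ?_
    exact le_iSup (fun p : {p : Cn // x ∈ p.X} => eB p.1) ⟨r, hx⟩
  · refine ⟨r, hr.trans hq, le_sup_of_le_right ?_⟩
    refine le_iSup_of_le ((c, h) : (ℕ → Set (List ℕ)) × (ℕ → ℕ)) ?_
    refine le_inf ((dense_eB.mono _ _ hr).trans hc) ?_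
    exact le_iSup (fun p : {p : Cn // (Oc c, h) ∈ p.V} => eB p.1) ⟨r, hh⟩

end GO

end SymExt
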