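import Pool.Agent.Lib.MP_694cb9_lc.RO
import Pool.Agent.Lib.MP_694cb9_lc.OrdN
import Pool.Agent.Lib.MP_70f607_gt.Defs

/-!
# General facts about Boolean-valued names: statements

The axiom of choice in generic models, and the distributivity of the algebra of a countably
closed preorder.
-/

namespace SymExt

universe u v w

open Name

/-- The trivial symmetric system: every name is hereditarily symmetric. -/
def triv (𝔹 : Type u) [CompleteBooleanAlgebra 𝔹] : SymSys 𝔹 where
  G := PUnit.{u + 1}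
  act := 1
  F := Set.univ
  top_mem := trivial
  up := fun _ _ _ _ => trivial
  inf_mem := fun _ _ _ _ => trivial
  conj := fun H _ g => ⟨⊤, trivial, fun h _ => by
    have : g⁻¹ * h * g = 1 := rfl
    rw [this]; exact H.one_mem⟩

section

variable {𝔹 : Type u} [CompleteBooleanAlgebra 𝔹]

/-- A name of a function from ordinals onto a superset of `x`. -/
noncomputable def acN (x : Name 𝔹) : Name 𝔹 :=
  Name.mk x.idx (fun i => opN (ordN (Ordinal.typein WellOrderingRel i)) (x.elt i)) fun _ => ⊤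

open Classical in
/-- A pair of `acN x` with second component `y`, if `y` is an element of `x`. -/
noncomputable def acE (x y : Name 𝔹) : Name 𝔹 :=
  if h : ∃ i, x.elt i = y then opN (ordN (Ordinal.typein WellOrderingRel h.choose)) y else empN

end

/-- Module G1: all names are hereditarily symmetric for the trivial system, and the axiom of
choice holds in the generic model. -/
def StAC : Prop := ∀ (𝔹 : Type u) [CompleteBooleanAlgebra 𝔹],
  (∀ x : Name 𝔹, (triv 𝔹).HS x) ∧
  ∀ (C : Set (Name 𝔹)) (U : Set 𝔹), Good (triv 𝔹) C U → (∀ x ∈ C, acN x ∈ C) →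
    (∀ x ∈ C, ∀ y ∈ C, acE x y ∈ C) → (∀ x y : Name 𝔹, opN x y ∈ C → x ∈ C ∧ y ∈ C) →
    IsZFC (model (triv 𝔹) C U)

/-- Countably closed preorders. -/
def CClosed (P : Type u) [Preorder P] : Prop :=
  ∀ p : ℕ → P, (∀ n, p (n + 1) ≤ p n) → ∃ q, ∀ n, q ≤ p n

/-- Module G2: dependent choices. -/
def StTree : Prop := ∀ (P : Type u) [Preorder P] (𝔹 : Type v) [CompleteBooleanAlgebra 𝔹]
  (e : P → 𝔹), DenseMap e → CClosed P → ∀ (T : Type w) (next : T → T → Prop) (b : T → 𝔹) (t0 : T),
  (∀ t, b t ≤ ⨆ t' : {t' // next t t'}, b t'.1) →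
  b t0 ≤ ⨆ π : {π : ℕ → T // π 0 = t0 ∧ ∀ n, next (π n) (π (n + 1))}, ⨅ n, b (π.1 n)

/-- Module G2: countable distributivity. -/
def StDist : Prop := ∀ (P : Type u) [Preorder P] (𝔹 : Type v) [CompleteBooleanAlgebra 𝔹]
  (e : P → 𝔹), DenseMap e → CClosed P → ∀ (J : Type) [Countable J] (T : J → Type w)
  (b : ∀ j, T j → 𝔹),
  ⨅ j, ⨆ t, b j t ≤ ⨆ h : (∀ j, T j), ⨅ j, b j (h j)

end SymExt
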