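import Pool.Agent.Lib.MP_70f607_gt.Comb
import Pool.Agent.Lib.MP_70f607_gt.Gen1

/-!
# The forcing, the names, and the statements of the remaining modules
-/

namespace SymExt

namespace GO

open Name

/-- The Boolean algebra. -/
abbrev B : Type := RO Cn

/-- Conditions as elements of the Boolean algebra. -/
noncomputable def eB (p : Cn) : B := RO.e p

theorem dense_eB : DenseMap eB := RO.dense_e

/-- The point of the Baire space that codes `x`: the value at `⟨k, ⟨n, i⟩⟩` is `1` if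
`x (k, n) ≤ i` and `0` otherwise. -/
noncomputable def enc (x : W) (j : ℕ) : ℕ :=
  open Classical in
  if x (j.unpair.1, j.unpair.2.unpair.1) ≤ (j.unpair.2.unpair.2 : ℕ∞) then 1 else 0

/-- The name of the sequence `F`. -/
noncomputable def seqN (F : ℕ → Name B) : Name B :=
  Name.mk ℕ (fun n => opN (natN n) (F n)) fun _ => ⊤

open Classical in
/-- The components of the name of a sequence. -/
noncomputable def unseq (n : ℕ) (z : Name B) : Name B :=
  if h : ∃ F, z = seqN F then h.choose n else empN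

/-- The name of the point that codes `x`. -/
noncomputable def ptN (x : W) : Name B := seqN fun j => natN (enc x j)

/-- The Boolean value of `x ∈ X`. -/
noncomputable def bX (x : W) : B := ⨆ p : {p : Cn // x ∈ p.X}, eB p.1

/-- The name of the space. -/
noncomputable def XN : Name B := Name.mk W ptN bX

/-- The name of the open set of the points `x` with `x (k, n) < ∞`. -/
noncomputable def UN (k n : ℕ) : Name B :=
  Name.mk {x : W // x (k, n) ≠ ⊤} (fun x => ptN x.1) fun x => bX x.1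

/-- The name of the `k`-th open cover. -/
noncomputable def AN (k : ℕ) : Name B := Name.mk ℕ (fun n => UN k n) fun _ => ⊤

/-- The value of: the selection `g` takes the `n`-th member of the `k`-th open cover. -/
noncomputable def bG (g : Name B) (k n : ℕ) : B := bmem (opN (natN k) (UN k n)) g

/-- The value of: `V` is a member of the `k`-th member of the sequence `φ`. -/
noncomputable def inK (φ : Name B) (k : ℕ) (V : Name B) : B :=
  ⨆ A : Name B, bmem (opN (natN k) A) φ ⊓ bmem V A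

/-- The value of: all names of the list are members of the `k`-th member of `φ`. -/
noncomputable def allK (φ : Name B) (k : ℕ) (L : List (Name B)) : B :=
  ⨅ V : {V // V ∈ L}, inK φ k V.1

/-- The value of: the `k`-th member of `φ` has a member different from those of the list. -/
noncomputable def newK (φ : Name B) (k : ℕ) (L : List (Name B)) : B :=
  ⨆ V : Name B, inK φ k V ⊓ ⨅ A : {A // A ∈ L}, (beq V A.1)ᶜ

/-- The value of: the `k`-th member of `φ` is infinite. -/
noncomputable def bInf (φ : Name B) (k : ℕ) : B := ⨅ L : List (Name B), allK φ k L ⇨ newK φ k L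

/-- The value of: `F ⟨k, m⟩`, `m ∈ ω`, are different members of the `k`-th member of `φ`. -/
noncomputable def bEnum (φ : Name B) (F : ℕ → Name B) : B :=
  (⨅ k, ⨅ m, inK φ k (F (Nat.pair k m))) ⊓
    ⨅ k, ⨅ m, ⨅ m' : {m' // m' < m}, (beq (F (Nat.pair k m)) (F (Nat.pair k m'.1)))ᶜ

/-- The finite sequence `σ` is an initial segment of the point that codes `x`. -/
def Pre (x : W) (σ : List ℕ) : Prop := (List.range σ.length).map (enc x) = σ

/-- The value of: `V` is disjoint from the basic open set given by `σ`. -/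
noncomputable def bD (V : Name B) (σ : List ℕ) : B :=
  ⨅ x : {x : W // Pre x σ}, (bX x.1 ⊓ bmem (ptN x.1) V)ᶜ

open Classical in
/-- The value of: `c j` is the set of the `σ` such that `F j` is disjoint from the basic open set
given by `σ`. -/
noncomputable def bMatch (F : ℕ → Name B) (c : ℕ → Set (List ℕ)) : B :=
  ⨅ j, ⨅ σ, if σ ∈ c j then bD (F j) σ else (bD (F j) σ)ᶜ

/-- The open sets given by `c`. -/
def Oc (c : ℕ → Set (List ℕ)) : Code := fun k m => {x | ∃ σ ∈ c (Nat.pair k m), Pre x σ}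

/-- The value of: the selection `h` is promised for the code `O`. -/
noncomputable def bProm (O : Code) (h : ℕ → ℕ) : B := ⨆ p : {p : Cn // (O, h) ∈ p.V}, eB p.1

/-- Index set for `StR1`: selections together with a pair of points that kills them. -/
def IR1 : Type := {t : (ℕ → ℕ) × W × W // ∀ k, t.2.1 (k, t.1 k) = ⊤ ∨ t.2.2 (k, t.1 k) = ⊤}

/-- The elements of the algebra for `StR1`. -/
noncomputable def bR1 (g : Name B) (t : IR1) : B :=
  (⨅ k, bG g k (t.1.1 k)) ⊓ (bX t.1.2.1 ⊓ bX t.1.2.2)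

/-- Every selection from the open covers is killed by a pair of points. -/
def StR1 : Prop := ∀ g : Name B, ⨅ k, ⨆ n, bG g k n ≤ ⨆ t : IR1, bR1 g t

/-- Infinite families have infinite sequences of different members. -/
def StR2 : Prop := ∀ φ : Name B, ⨅ k, bInf φ k ≤ ⨆ F : ℕ → Name B, bEnum φ F

/-- Index set for `StR3`: codes together with a point that kills a row. -/
def IR3 : Type := {t : (ℕ → Set (List ℕ)) × W × ℕ // ∀ N, ∃ m ≥ N, t.2.1 ∈ Oc t.1 t.2.2 m}

/-- Codes of closed sets can be decided, and then the code is killed by a point or a selection is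
promised. -/
def StR3 : Prop := ∀ F : ℕ → Name B,
  (⨆ t : IR3, bMatch F t.1.1 ⊓ bX t.1.2.1) ⊔
    (⨆ t : (ℕ → Set (List ℕ)) × (ℕ → ℕ), bMatch F t.1 ⊓ bProm (Oc t.1) t.2) = ⊤

/-- There are points with `x (k, n) = ∞`. -/
def StR4 : Prop := ∀ k n, ⨆ x : {x : W // x (k, n) = ⊤}, bX x.1 = ⊤

/-- Promises are kept. -/
def StR5 : Prop := ∀ (O : Code) (h : ℕ → ℕ) (F : Set W), F.Finite →
  bProm O h ⊓ (⨅ x : {x // x ∈ F}, bX x.1) ≠ ⊥ → ∃ k, ∀ x ∈ F, x ∉ O k (h k)

/-- Points of the space have at most one infinite value in every column. -/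
def StR6 : Prop := ∀ x : W, bX x ≠ ⊥ → x ∈ K

/-- Module F1. -/
def StBool : Prop := StR1 ∧ StR2 ∧ StR3 ∧ StR4 ∧ StR5 ∧ StR6

/-- The properties of the generic pair `(C, U)` that are used. -/
structure GG (C : Set (Name B)) (U : Set B) : Prop where
  unop : ∀ x y : Name B, opN x y ∈ C → x ∈ C ∧ y ∈ C
  useq : ∀ F : ℕ → Name B, seqN F ∈ C → ∀ n, F n ∈ C
  cX : XN ∈ C
  cU : ∀ k n, UN k n ∈ C
  cA : ∀ k, AN k ∈ C
  cS : seqN AN ∈ C
  top : ∀ k n, ∃ x : W, x (k, n) = ⊤ ∧ bX x ∈ U ∧ ptN x ∈ C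
  kill : ∀ g ∈ C, (∀ k, (⨆ n, bG g k n) ∈ U) → ∃ (h : ℕ → ℕ) (x x' : W),
    (∀ k, x (k, h k) = ⊤ ∨ x' (k, h k) = ⊤) ∧ (∀ k, bG g k (h k) ∈ U) ∧
    bX x ∈ U ∧ ptN x ∈ C ∧ bX x' ∈ U ∧ ptN x' ∈ C
  wit : ∀ φ ∈ C, ∀ k, ∀ V ∈ C, inK φ k V ∈ U →
    ∃ A ∈ C, bmem (opN (natN k) A) φ ∈ U ∧ bmem V A ∈ U
  infk : ∀ φ ∈ C, ∀ k, bInf φ k ∉ U → ∃ L : List (Name B),
    (∀ V ∈ L, V ∈ C ∧ inK φ k V ∈ U) ∧ newK φ k L ∉ U
  enum : ∀ φ ∈ C, (∀ k, bInf φ k ∈ U) → ∃ F : ℕ → Name B, seqN F ∈ C ∧ bEnum φ F ∈ U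
  disj : ∀ V ∈ C, ∀ σ : List ℕ,
    (∀ x : W, Pre x σ → bX x ∈ U → ptN x ∈ C → bmem (ptN x) V ∉ U) → bD V σ ∈ U
  main : ∀ F : ℕ → Name B, seqN F ∈ C →
    (∃ (c : ℕ → Set (List ℕ)) (x : W) (k : ℕ), (∀ N, ∃ m ≥ N, x ∈ Oc c k m) ∧
      bMatch F c ∈ U ∧ bX x ∈ U ∧ ptN x ∈ C) ∨
    ∃ (c : ℕ → Set (List ℕ)) (h : ℕ → ℕ), bMatch F c ∈ U ∧ bProm (Oc c) h ∈ U ∧
      seqN (fun k => F (Nat.pair k (h k))) ∈ C

/-- Module M1: the generic pair. -/
def StGG : Prop := StBool → ∃ (C : Set (Name B)) (U : Set B), Good (triv B) C U ∧ GG C U ∧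
  (∀ x ∈ C, acN x ∈ C) ∧ ∀ x ∈ C, ∀ y ∈ C, acE x y ∈ C

/-- Basic facts about the values of the names. -/
structure VV (C : Set (Name B)) (U : Set B) : Prop where
  /-- names of sequences -/
  seq : ∀ F : ℕ → Name B, seqN F ∈ C → ∀ z, z ∈ val C U (seqN F) ↔
    ∃ n, z = ZFSet.pair (natSet n) (val C U (F n))
  /-- the names of the points -/
  pt : ∀ x : W, ptN x ∈ C → ∀ z, z ∈ val C U (ptN x) ↔
    ∃ n, z = ZFSet.pair (natSet n) (natSet (enc x n))
  /-- different points have different values -/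
  inj : ∀ x y : W, ptN x ∈ C → ptN y ∈ C → val C U (ptN x) = val C U (ptN y) → x = y
  /-- agreement of points -/
  agree : ∀ x y : W, ptN x ∈ C → ptN y ∈ C → ∀ n,
    (AgreeTo n (val C U (ptN x)) (val C U (ptN y)) ↔ ∀ i < n, enc x i = enc y i)
  /-- the space -/
  space : ∀ z, z ∈ val C U XN ↔ ∃ x, ptN x ∈ C ∧ bX x ∈ U ∧ z = val C U (ptN x)
  /-- the open sets -/
  opn : ∀ k n z, z ∈ val C U (UN k n) ↔
    ∃ x, x (k, n) ≠ ⊤ ∧ ptN x ∈ C ∧ bX x ∈ U ∧ z = val C U (ptN x)
  /-- the open covers -/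
  cov : ∀ k z, z ∈ val C U (AN k) ↔ ∃ n, z = val C U (UN k n)

/-- Module S0. -/
def StVV : Prop := ∀ (C : Set (Name B)) (U : Set B), Good (triv B) C U → GG C U → VV C U

/-- Module S1: `S₁(Γ, Ω)` fails. -/
def StNeg : Prop := (∀ x : Name B, (triv B).HS x) → StR6 →
  ∀ (C : Set (Name B)) (U : Set B), Good (triv B) C U → GG C U → VV C U →
  ¬ SelOne (model (triv B) C U) (val C U XN) (OpenSub (val C U XN))

/-- Module S2: `S₁` for closed `γ`-covers holds. -/
def StPos : Prop := (∀ x : Name B, (triv B).HS x) → StR5 →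
  ∀ (C : Set (Name B)) (U : Set B), Good (triv B) C U → GG C U → VV C U →
  SelOne (model (triv B) C U) (val C U XN) (ClosedSub (val C U XN))

end GO

end SymExt
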