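import Pool.Agent.Lib.MP_694cb9_lc.Model
import Pool.Agent.Lib.MP_70f607_gt.Force

set_option autoImplicit false

/-!
# Module M1: the generic pair
-/

namespace SymExt

namespace GO

open Name

namespace M1

theorem opN_inj {x y x' y' : Name B} (h : opN x y = opN x' y') : x = x' ∧ y = y' := by
  have key : ∀ {a b a' b' : Name B}, pairN a b = pairN a' b' → a = a' ∧ b = b' := by
    intro a b a' b' h
    have h1 := (Name.mk.inj h).2.1
    have h2 := eq_of_heq h1
    exact ⟨congrFun h2 ⟨true⟩, congrFun h2 ⟨false⟩⟩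
  obtain ⟨h1, h2⟩ := key h
  exact ⟨(key h1).1, (key h2).2⟩

open Classical in
/-- Components of an ordered pair. -/
noncomputable def unop (c : Bool) (x : Name B) : Name B :=
  if h : ∃ p : Name B × Name B, x = opN p.1 p.2 then cond c h.choose.1 h.choose.2 else empN

theorem unop_opN (c : Bool) (x y : Name B) : unop c (opN x y) = cond c x y := by
  have h : ∃ p : Name B × Name B, opN x y = opN p.1 p.2 := ⟨(x, y), rfl⟩
  rw [unop, dif_pos h]
  obtain ⟨h1, h2⟩ := opN_inj h.choose_spec
  cases c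
  · exact h2.symm
  · exact h1.symm

theorem seqN_inj {F F' : ℕ → Name B} (h : seqN F = seqN F') : F = F' := by
  have h1 := (Name.mk.inj h).2.1
  have h2 := eq_of_heq h1
  funext n
  exact (opN_inj (congrFun h2 n)).2

theorem unseq_seqN (n : ℕ) (F : ℕ → Name B) : unseq n (seqN F) = F n := by
  have h : ∃ F', seqN F = seqN F' := ⟨F, rfl⟩
  rw [unseq, dif_pos h]
  exact congrFun (seqN_inj h.choose_spec).symm n

/-- The additional operations. -/
noncomputable def opM : ℕ × ℕ × ℕ → List (Name B) → Name B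
  | (0, _, _), l => unop true (l.getD 0 empN)
  | (1, _, _), l => unop false (l.getD 0 empN)
  | (2, n, _), l => unseq n (l.getD 0 empN)
  | (3, _, _), _ => XN
  | (4, k, n), _ => UN k n
  | (5, k, _), _ => AN k
  | (6, _, _), _ => seqN AN
  | (7, _, _), l => acN (l.getD 0 empN)
  | (8, _, _), l => acE (l.getD 0 empN) (l.getD 1 empN)
  | (_, _, _), _ => empN

/-- The additional requirements. -/
noncomputable def reqM (r : ℕ × ℕ × ℕ × List ℕ) (l : List (Name B)) : Set (B × List (Name B)) :=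
  let k := r.2.1
  let n := r.2.2.1
  let σ := r.2.2.2
  let a := l.getD 0 empN
  let b := l.getD 1 empN
  match r.1 with
  | 0 => fam (fun x : {x : W // x (k, n) = ⊤} => bX x.1) fun x => [ptN x.1]
  | 1 => fam (fun k => (⨆ n, bG a k n)ᶜ) fun _ : ℕ => []
  | 2 => fam (fun t : IR1 => bR1 a t) fun t => [ptN t.1.2.1, ptN t.1.2.2]
  | 3 => fam (fun A : Name B => bmem (opN (natN k) A) a ⊓ bmem b A) fun A => [A]
  | 4 => fam (fun L : List (Name B) => allK a k L ⊓ (newK a k L)ᶜ) fun L => L
  | 5 => fam (fun k => (bInf a k)ᶜ) fun _ : ℕ => []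
  | 6 => fam (fun F : ℕ → Name B => bEnum a F) fun F => [seqN F]
  | 7 => fam (fun x : {x : W // Pre x σ} => bX x.1 ⊓ bmem (ptN x.1) a) fun x => [ptN x.1]
  | 8 => fam (fun t : IR3 => bMatch (fun n => unseq n a) t.1.1 ⊓ bX t.1.2.1)
      fun t => [ptN t.1.2.1]
  | 9 => fam (fun t : (ℕ → Set (List ℕ)) × (ℕ → ℕ) =>
      bMatch (fun n => unseq n a) t.1 ⊓ bProm (Oc t.1) t.2)
      fun t => [seqN (fun k => unseq (Nat.pair k (t.2 k)) a)]
  | _ => ∅

variable {C : Set (Name B)} {U : Set B}

/-- A universal statement. -/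
theorem all_mem {ι : Sort*} {f : ι → B} {l : ι → List (Name B)}
    (hr : Met C U (fam (fun i => (f i)ᶜ) l))
    (hb : ∀ i, (∀ x ∈ l i, x ∈ C) → (f i)ᶜ ∉ U) : (⨅ i, f i) ∈ U := by
  rcases hr.dec with h1 | h1
  · exfalso
    obtain ⟨i, h2, h3⟩ := hr.wit h1
    exact hb i h3 h2
  · rw [compl_iSup] at h1
    simp only [compl_compl] at h1
    exact h1

/-- The empty condition. -/
def cn0 : Cn where
  X := ∅
  V := ∅
  hX := Set.countable_empty
  hV := Set.countable_empty
  hK := Set.empty_subset _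
  sel := fun _ h => absurd h (Set.notMem_empty _)
  inf := fun _ h => absurd h (Set.notMem_empty _)

theorem top_ne : (⊤ : B) ≠ ⊥ := by
  intro h
  refine dense_eB.ne_bot cn0 (le_bot_iff.1 ?_)
  rw [← h]
  exact le_top

end M1

open M1

/-- Module M1: the generic pair. -/
theorem stGG : StGG := by
  intro hB
  obtain ⟨R1, R2, R3, R4, -, -⟩ := hB
  obtain ⟨C, U, h, _, hop, hreq⟩ := exists_good (triv B) opM reqM ⊤ top_ne
  have hmem : ∀ {a : Name B}, a ∈ C → ∀ x ∈ [a], x ∈ C := by
    intro a ha x hx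
    rw [List.mem_singleton] at hx
    rwa [hx]
  have hmem2 : ∀ {a b : Name B}, a ∈ C → b ∈ C → ∀ x ∈ [a, b], x ∈ C := by
    intro a b ha hb x hx
    simp only [List.mem_cons, List.not_mem_nil, or_false] at hx
    rcases hx with rfl | rfl
    · exact ha
    · exact hb
  have hnil : ∀ x ∈ ([] : List (Name B)), x ∈ C := by simp
  have hunop : ∀ x y : Name B, opN x y ∈ C → x ∈ C ∧ y ∈ C := fun x y hxy => by
    have e1 := hop (0, 0, 0) [opN x y] (hmem hxy)
    have e2 := hop (1, 0, 0) [opN x y] (hmem hxy)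
    change unop true (opN x y) ∈ C at e1
    change unop false (opN x y) ∈ C at e2
    rw [unop_opN] at e1 e2
    exact ⟨e1, e2⟩
  refine ⟨C, U, h, ?_, fun x hx => hop (7, 0, 0) [x] (hmem hx),
    fun x hx y hy => hop (8, 0, 0) [x, y] (hmem2 hx hy)⟩
  exact
    { unop := hunop
      useq := fun F hF n => by
        have e1 := hop (2, n, 0) [seqN F] (hmem hF)
        change unseq n (seqN F) ∈ C at e1
        rwa [unseq_seqN] at e1
      cX := hop (3, 0, 0) [] hnil
      cU := fun k n => hop (4, k, n) [] hnil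
      cA := fun k => hop (5, k, 0) [] hnil
      cS := hop (6, 0, 0) [] hnil
      top := fun k n => by
        obtain ⟨x, h1, h2⟩ := (hreq (0, k, n, []) [] hnil).wit (by
          change (⨆ x : {x : W // x (k, n) = ⊤}, bX x.1) ∈ U
          rw [R4 k n]
          exact h.top)
        exact ⟨x.1, x.2, h1, h2 _ (by simp)⟩
      kill := fun g hg hk => by
        have h1 : (⨅ k, ⨆ n, bG g k n) ∈ U := by
          refine all_mem (l := fun _ : ℕ => []) (hreq (1, 0, 0, []) [g] (hmem hg)) fun k _ => ?_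
          exact h.not_compl (hk k)
        have h2 : (⨆ t : IR1, bR1 g t) ∈ U := h.up _ h1 _ (R1 g)
        obtain ⟨t, h3, h4⟩ := (hreq (2, 0, 0, []) [g] (hmem hg)).wit h2
        change (⨅ k, bG g k (t.1.1 k)) ⊓ (bX t.1.2.1 ⊓ bX t.1.2.2) ∈ U at h3
        rw [h.inf_iff, h.inf_iff] at h3
        exact ⟨t.1.1, t.1.2.1, t.1.2.2, t.2, fun k => h.up _ h3.1 _ (iInf_le _ k), h3.2.1,
          h4 _ (by simp), h3.2.2, h4 _ (by simp)⟩
      wit := fun φ hφ k V hV hin => by
        obtain ⟨A, h3, h4⟩ := (hreq (3, k, 0, []) [φ, V] (hmem2 hφ hV)).wit hin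
        change bmem (opN (natN k) A) φ ⊓ bmem V A ∈ U at h3
        rw [h.inf_iff] at h3
        exact ⟨A, h4 _ (by simp), h3.1, h3.2⟩
      infk := fun φ hφ k hin => by
        have hr := hreq (4, k, 0, []) [φ] (hmem hφ)
        rcases hr.dec with h1 | h1
        · obtain ⟨L, h3, h4⟩ := hr.wit h1
          change allK φ k L ⊓ (newK φ k L)ᶜ ∈ U at h3
          rw [h.inf_iff] at h3
          refine ⟨L, fun V hV => ⟨h4 V hV, ?_⟩, fun h5 => h.not_compl h5 h3.2⟩
          exact h.up _ h3.1 _ (iInf_le (fun V : {V // V ∈ L} => inK φ k V.1) ⟨V, hV⟩)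
        · exfalso
          refine hin ?_
          change (⨆ L : List (Name B), allK φ k L ⊓ (newK φ k L)ᶜ)ᶜ ∈ U at h1
          rw [compl_iSup] at h1
          simp only [compl_inf, compl_compl] at h1
          have e : bInf φ k = ⨅ L : List (Name B), (allK φ k L)ᶜ ⊔ newK φ k L := by
            unfold bInf
            refine iInf_congr fun L => ?_
            rw [himp_eq, sup_comm]
          rw [e]
          exact h1
      enum := fun φ hφ hk => by
        have h1 : (⨅ k, bInf φ k) ∈ U := by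
          refine all_mem (l := fun _ : ℕ => []) (hreq (5, 0, 0, []) [φ] (hmem hφ)) fun k _ => ?_
          exact h.not_compl (hk k)
        have h2 : (⨆ F : ℕ → Name B, bEnum φ F) ∈ U := h.up _ h1 _ (R2 φ)
        obtain ⟨F, h3, h4⟩ := (hreq (6, 0, 0, []) [φ] (hmem hφ)).wit h2
        exact ⟨F, h4 _ (by simp), h3⟩
      disj := fun V hV σ hx => by
        have hr := hreq (7, 0, 0, σ) [V] (hmem hV)
        rcases hr.dec with h1 | h1
        · exfalso
          obtain ⟨x, h3, h4⟩ := hr.wit h1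
          change bX x.1 ⊓ bmem (ptN x.1) V ∈ U at h3
          rw [h.inf_iff] at h3
          exact hx x.1 x.2 h3.1 (h4 _ (by simp)) h3.2
        · change (⨆ x : {x : W // Pre x σ}, bX x.1 ⊓ bmem (ptN x.1) V)ᶜ ∈ U at h1
          rw [compl_iSup] at h1
          exact h1
      main := fun F hF => by
        have hr1 := hreq (8, 0, 0, []) [seqN F] (hmem hF)
        have hr2 := hreq (9, 0, 0, []) [seqN F] (hmem hF)
        have e : (fun n => unseq n (seqN F)) = F := funext fun n => unseq_seqN n F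
        rcases hr1.dec with h1 | h1
        · left
          obtain ⟨t, h3, h4⟩ := hr1.wit h1
          change bMatch (fun n => unseq n (seqN F)) t.1.1 ⊓ bX t.1.2.1 ∈ U at h3
          rw [e, h.inf_iff] at h3
          exact ⟨t.1.1, t.1.2.1, t.1.2.2, t.2, h3.1, h3.2, h4 _ (by simp)⟩
        · right
          have h2 : (⨆ t : (ℕ → Set (List ℕ)) × (ℕ → ℕ),
              bMatch (fun n => unseq n (seqN F)) t.1 ⊓ bProm (Oc t.1) t.2) ∈ U := by
            refine h.up _ h1 _ ?_
            change (⨆ t : IR3, bMatch (fun n => unseq n (seqN F)) t.1.1 ⊓ bX t.1.2.1)ᶜ ≤ _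
            rw [e]
            exact codisjoint_iff_compl_le_right.1 (codisjoint_iff.2 (R3 F))
          obtain ⟨t, h3, h4⟩ := hr2.wit h2
          change bMatch (fun n => unseq n (seqN F)) t.1 ⊓ bProm (Oc t.1) t.2 ∈ U at h3
          rw [e, h.inf_iff] at h3
          have h5 : seqN (fun k => unseq (Nat.pair k (t.2 k)) (seqN F)) ∈ C := h4 _ (by
            exact List.mem_singleton.2 rfl)
          simp only [unseq_seqN] at h5
          exact ⟨t.1, t.2, h3.1, h3.2, h5⟩ }

end GO

end SymExt
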