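import Pool.Agent.Lib.MP_70f607_gt.Force

set_option autoImplicit false

/-!
# Module S1: `S₁(Γ, Ω)` fails
-/

namespace SymExt

namespace GO

open Name

namespace S1

theorem natSet_mem {n m : ℕ} (h : n < m) : (natSet n : ZFSet.{0}) ∈ natSet m := by
  induction m with
  | zero => omega
  | succ m ih =>
    rw [natSet, ZFSet.mem_insert_iff]
    rcases Nat.lt_or_ge n m with h1 | h1
    · exact Or.inr (ih h1)
    · have : n = m := by omega
      exact Or.inl (by rw [this])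

theorem natSet_inj {n m : ℕ} (h : (natSet n : ZFSet.{0}) = natSet m) : n = m := by
  rcases lt_trichotomy n m with h1 | h1 | h1
  · have h2 := natSet_mem h1
    rw [h] at h2
    exact (ZFSet.mem_irrefl _ h2).elim
  · exact h1
  · have h2 := natSet_mem h1
    rw [h] at h2
    exact (ZFSet.mem_irrefl _ h2).elim

variable {C : Set (Name B)} {U : Set B}

theorem mem_K (hR : StR6) (h : Good (triv B) C U) {x : W} (hx : bX x ∈ U) : x ∈ K :=
  hR x fun h0 => h.bot (h0 ▸ hx)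

/-- points of the open sets -/
theorem mem_UN (hV : VV C U) {x : W} (hx : bX x ∈ U) (hC : ptN x ∈ C) (k n : ℕ) :
    val C U (ptN x) ∈ val C U (UN k n) ↔ x (k, n) ≠ ⊤ := by
  rw [hV.opn]
  constructor
  · rintro ⟨y, h1, h2, _, h4⟩
    rwa [hV.inj x y hC h2 h4]
  · intro h1
    exact ⟨x, h1, hC, hx, rfl⟩

theorem seqA (hH : ∀ x : Name B, (triv B).HS x) (hGG : GG C U) (hV : VV C U) :
    SeqIn (model (triv B) C U) fun k => val C U (AN k) :=
  ⟨val C U (seqN AN), ⟨seqN AN, hGG.cS, hH _, rfl⟩, hV.seq AN hGG.cS⟩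

theorem exists_top (hR : StR6) (h : Good (triv B) C U) (hGG : GG C U) (hV : VV C U) (k n : ℕ) :
    ∃ x : W, bX x ∈ U ∧ ptN x ∈ C ∧ val C U (ptN x) ∉ val C U (UN k n) ∧
      ∀ n', n' ≠ n → val C U (ptN x) ∈ val C U (UN k n') := by
  obtain ⟨x, h1, h2, h3⟩ := hGG.top k n
  refine ⟨x, h2, h3, fun h4 => (mem_UN hV h2 h3 k n).1 h4 h1, fun n' hn => ?_⟩
  rw [mem_UN hV h2 h3]
  exact fun h4 => hn (mem_K hR h h2 k n' n h4 h1)

theorem gamma (hR : StR6) (h : Good (triv B) C U) (hGG : GG C U) (hV : VV C U) (k : ℕ) :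
    GammaCover (val C U XN) {O | O ∈ val C U (AN k)} := by
  refine ⟨?_, ?_, ?_⟩
  · refine Set.infinite_of_injective_forall_mem (f := fun n => val C U (UN k n)) ?_ ?_
    · intro n n' hn
      by_contra hne
      obtain ⟨x, _, _, h3, h4⟩ := exists_top hR h hGG hV k n
      have h5 := h4 n' (fun h => hne h.symm)
      simp only at hn
      rw [hn] at h3
      exact h3 h5
    · intro n
      exact (hV.cov k _).2 ⟨n, rfl⟩
  · intro hX
    obtain ⟨n, hn⟩ := (hV.cov k _).1 hX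
    obtain ⟨x, h1, h2, h3, _⟩ := exists_top hR h hGG hV k n
    rw [← hn] at h3
    exact h3 ((hV.space _).2 ⟨x, h2, h1, rfl⟩)
  · intro z hz
    obtain ⟨x, h1, h2, rfl⟩ := (hV.space _).1 hz
    refine Set.Subsingleton.finite ?_
    rintro O ⟨hO, hO'⟩ O' ⟨hO1, hO1'⟩
    obtain ⟨n, rfl⟩ := (hV.cov k _).1 hO
    obtain ⟨n', rfl⟩ := (hV.cov k _).1 hO1
    rw [mem_UN hV h2 h1, not_not] at hO' hO1'
    rw [mem_K hR h h2 k n n' hO' hO1']

theorem enc_pair (x : W) (k n i : ℕ) :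
    enc x (Nat.pair k (Nat.pair n i)) = 1 ↔ x (k, n) ≤ (i : ℕ∞) := by
  unfold enc
  simp only [Nat.unpair_pair]
  split_ifs with h
  · exact ⟨fun _ => h, fun _ => rfl⟩
  · exact ⟨fun h' => absurd h' (by norm_num), fun h' => absurd h' h⟩

theorem openSub (hV : VV C U) (k n : ℕ) : OpenSub (val C U XN) (val C U (UN k n)) := by
  constructor
  · intro z hz
    obtain ⟨x, _, h2, h3, h4⟩ := (hV.opn k n z).1 hz
    exact (hV.space _).2 ⟨x, h2, h3, h4⟩
  · intro z hz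
    obtain ⟨x, h1, h2, h3, rfl⟩ := (hV.opn k n z).1 hz
    obtain ⟨v, hv⟩ := ENat.ne_top_iff_exists.1 h1
    refine ⟨Nat.pair k (Nat.pair n v) + 1, fun w hw hag => ?_⟩
    obtain ⟨y, h4, h5, rfl⟩ := (hV.space _).1 hw
    have h6 := (hV.agree x y h2 h4 _).1 hag _ (Nat.lt_succ_self _)
    have h7 : enc x (Nat.pair k (Nat.pair n v)) = 1 := (enc_pair x k n v).2 (by rw [← hv])
    have h8 : y (k, n) ≤ (v : ℕ∞) := (enc_pair y k n v).1 (by rw [← h6, h7])
    refine (mem_UN hV h5 h4 k n).2 fun h9 => ?_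
    rw [h9, top_le_iff] at h8
    exact ENat.natCast_ne_top v h8

end S1

open S1 in
theorem stNeg : StNeg := by
  intro hH hR C U h hGG hV hSel
  obtain ⟨Us, ⟨g, hgM, hg⟩, hU1, hU2⟩ := hSel (fun k => val C U (AN k)) (seqA hH hGG hV)
    (fun k => ⟨gamma hR h hGG hV k, fun O hO => by
      obtain ⟨n, rfl⟩ := (hV.cov k _).1 hO
      exact openSub hV k n⟩)
  obtain ⟨γ, hγ, _, rfl⟩ := hgM
  have hval : ∀ k n, val C U (opN (natN k) (UN k n)) =
      ZFSet.pair (natSet k) (val C U (UN k n)) := by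
    intro k n
    rw [h.val_opN (h.nat k) (hGG.cU k n), h.val_natN]
  have hbG : ∀ k n, bG γ k n ∈ U ↔ ZFSet.pair (natSet k) (val C U (UN k n)) ∈ val C U γ := by
    intro k n
    unfold bG
    rw [h.bmem_iff (h.opN_mem (h.nat k) (hGG.cU k n)) hγ, hval]
  have hsup : ∀ k, (⨆ n, bG γ k n) ∈ U := by
    intro k
    obtain ⟨n, hn⟩ := (hV.cov k _).1 (hU1 k)
    refine h.up _ ((hbG k n).2 ?_) _ (le_iSup (fun n => bG γ k n) n)
    rw [hg]
    exact ⟨k, by rw [hn]⟩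
  obtain ⟨f, x, x', h1, h2, h3, h4, h5, h6⟩ := hGG.kill γ hγ hsup
  have hUk : ∀ k, Us k = val C U (UN k (f k)) := by
    intro k
    obtain ⟨n, hn⟩ := (hg _).1 ((hbG k (f k)).1 (h2 k))
    obtain ⟨h7, h8⟩ := ZFSet.pair_inj.1 hn
    rw [natSet_inj h7, ← h8, natSet_inj h7]
  obtain ⟨O, ⟨k, rfl⟩, hO⟩ := hU2.2 {val C U (ptN x), val C U (ptN x')} (Set.toFinite _) (by
    rintro z (rfl | rfl)
    · exact (hV.space _).2 ⟨x, h4, h3, rfl⟩
    · exact (hV.space _).2 ⟨x', h6, h5, rfl⟩)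
  rw [hUk k] at hO
  rcases h1 k with h7 | h7
  · exact (mem_UN hV h3 h4 k (f k)).1 (hO _ (by simp)) h7
  · exact (mem_UN hV h5 h6 k (f k)).1 (hO _ (by simp)) h7

end GO

end SymExt
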