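import Pool.Agent.Lib.MP_694cb9_lc.Model
import Pool.Agent.Lib.MP_694cb9_lc.SName
import Pool.Agent.Lib.MP_70f607_gt.Force

/-!
# Module S2: the selection principle for closed covers holds in the generic model
-/

namespace SymExt

namespace GO

open Name

namespace S2

/-- the second component of an ordered pair in a transitive model of ZF -/
theorem snd_mem {N : Set ZFSet.{0}} (h : IsZF N) {x y : ZFSet.{0}} (hxy : ZFSet.pair x y ∈ N) :
    y ∈ N := by
  have h1 : ({x, y} : ZFSet) ∈ ZFSet.pair x y := by simp [ZFSet.pair]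
  have h2 : y ∈ ({x, y} : ZFSet) := by simp
  exact h.trans _ (h.trans _ hxy _ h1) _ h2

variable {C : Set (Name B)} {U : Set B}

/-- the filter contains finite infima -/
theorem iInf_mem_finset (h : Good (triv B) C U) {ι : Type*} (s : Finset ι) (f : ι → B)
    (hf : ∀ i ∈ s, f i ∈ U) : (⨅ i ∈ s, f i) ∈ U := by
  classical
  induction s using Finset.induction_on with
  | empty => simpa using h.top
  | insert a s ha ih =>
    rw [Finset.iInf_insert]
    exact h.inf _ (hf a (Finset.mem_insert_self a s)) _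
      (ih fun i hi => hf i (Finset.mem_insert_of_mem hi))

theorem iInf_mem_set (h : Good (triv B) C U) {ι : Type*} (s : Set ι) (hs : s.Finite) (f : ι → B)
    (hf : ∀ i ∈ s, f i ∈ U) : (⨅ i : {i // i ∈ s}, f i.1) ∈ U := by
  refine h.up _ (iInf_mem_finset h hs.toFinset f fun i hi => hf i (hs.mem_toFinset.1 hi)) _ ?_
  exact le_iInf fun i => iInf₂_le i.1 (hs.mem_toFinset.2 i.2)

theorem iInf_mem_list (h : Good (triv B) C U) {ι : Type*} (L : List ι) (f : ι → B)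
    (hf : ∀ i ∈ L, f i ∈ U) : (⨅ i : {i // i ∈ L}, f i.1) ∈ U :=
  iInf_mem_set h {i | i ∈ L} L.finite_toSet f hf

/-- a decided value -/
theorem compl_beq_mem (h : Good (triv B) C U) {x y : Name B} (hx : x ∈ C) (hy : y ∈ C)
    (hxy : val C U x ≠ val C U y) : (beq x y)ᶜ ∈ U := by
  rcases h.dec 2 (.eq 0 1) ![x, y] (by
    intro i
    refine Fin.cases ?_ (fun i => ?_) i
    · exact hx
    · refine Fin.cases ?_ (fun i => i.elim0) i
      exact hy) with h1 | h1
  · exact absurd ((h.beq_iff x y hx hy).1 h1) hxy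
  · exact h1

/-- the members of the members of the sequence -/
theorem inK_iff (hG : Good (triv B) C U) (gg : GG C U) {φ : Name B} (hφ : φ ∈ C)
    {A : ℕ → ZFSet.{0}}
    (hA : ∀ z, z ∈ val C U φ ↔ ∃ n : ℕ, z = ZFSet.pair (natSet n) (A n))
    (α : ℕ → Name B) (hα : ∀ k, α k ∈ C) (hα' : ∀ k, A k = val C U (α k))
    (k : ℕ) {V : Name B} (hV : V ∈ C) : inK φ k V ∈ U ↔ val C U V ∈ A k := by
  constructor
  · intro h1
    obtain ⟨A', hA', h2, h3⟩ := gg.wit φ hφ k V hV h1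
    have h4 := (hG.bmem_iff (hG.opN_mem (hG.nat k) hA') hφ).1 h2
    rw [hG.val_opN (hG.nat k) hA', hG.val_natN, hA] at h4
    obtain ⟨n, hn⟩ := h4
    obtain ⟨e1, e2⟩ := ZFSet.pair_inj.1 hn
    obtain rfl := natSet_inj e1
    rw [← e2]
    exact (hG.bmem_iff hV hA').1 h3
  · intro h1
    have h2 : bmem (opN (natN k) (α k)) φ ∈ U := by
      rw [hG.bmem_iff (hG.opN_mem (hG.nat k) (hα k)) hφ, hG.val_opN (hG.nat k) (hα k),
        hG.val_natN, hA]
      exact ⟨k, by rw [hα']⟩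
    have h3 : bmem V (α k) ∈ U := by
      rw [hG.bmem_iff hV (hα k), ← hα']
      exact h1
    exact hG.up _ (hG.inf _ h2 _ h3) _
      (le_iSup (fun A : Name B => bmem (opN (natN k) A) φ ⊓ bmem V A) (α k))

theorem bEnum_le_inK (φ : Name B) (F : ℕ → Name B) (k m : ℕ) :
    bEnum φ F ≤ inK φ k (F (Nat.pair k m)) := by
  have h1 : (⨅ k, ⨅ m, inK φ k (F (Nat.pair k m))) ≤ ⨅ m, inK φ k (F (Nat.pair k m)) :=
    iInf_le (fun k => ⨅ m, inK φ k (F (Nat.pair k m))) k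
  have h2 : (⨅ m, inK φ k (F (Nat.pair k m))) ≤ inK φ k (F (Nat.pair k m)) :=
    iInf_le (fun m => inK φ k (F (Nat.pair k m))) m
  have h3 : bEnum φ F ≤ ⨅ k, ⨅ m, inK φ k (F (Nat.pair k m)) := by
    rw [bEnum]
    exact inf_le_left
  exact h3.trans (h1.trans h2)

theorem bEnum_le_compl (φ : Name B) (F : ℕ → Name B) (k m m' : ℕ) (hm : m' < m) :
    bEnum φ F ≤ (beq (F (Nat.pair k m)) (F (Nat.pair k m')))ᶜ := by
  have h1 : (⨅ k, ⨅ m, ⨅ m' : {m' // m' < m}, (beq (F (Nat.pair k m)) (F (Nat.pair k m'.1)))ᶜ)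
      ≤ ⨅ m, ⨅ m' : {m' // m' < m}, (beq (F (Nat.pair k m)) (F (Nat.pair k m'.1)))ᶜ :=
    iInf_le (fun k => ⨅ m, ⨅ m' : {m' // m' < m},
      (beq (F (Nat.pair k m)) (F (Nat.pair k m'.1)))ᶜ) k
  have h2 : (⨅ m, ⨅ m' : {m' // m' < m}, (beq (F (Nat.pair k m)) (F (Nat.pair k m'.1)))ᶜ)
      ≤ ⨅ m' : {m' // m' < m}, (beq (F (Nat.pair k m)) (F (Nat.pair k m'.1)))ᶜ :=
    iInf_le (fun m => ⨅ m' : {m' // m' < m}, (beq (F (Nat.pair k m)) (F (Nat.pair k m'.1)))ᶜ) m
  have h3 : (⨅ m' : {m' // m' < m}, (beq (F (Nat.pair k m)) (F (Nat.pair k m'.1)))ᶜ)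
      ≤ (beq (F (Nat.pair k m)) (F (Nat.pair k m')))ᶜ :=
    iInf_le (fun m' : {m' // m' < m} => (beq (F (Nat.pair k m)) (F (Nat.pair k m'.1)))ᶜ) ⟨m', hm⟩
  have h4 : bEnum φ F ≤
      ⨅ k, ⨅ m, ⨅ m' : {m' // m' < m}, (beq (F (Nat.pair k m)) (F (Nat.pair k m'.1)))ᶜ := by
    rw [bEnum]
    exact inf_le_right
  exact h4.trans (h1.trans (h2.trans h3))

theorem bMatch_pos {F : ℕ → Name B} {c : ℕ → Set (List ℕ)} {j : ℕ} {σ : List ℕ} (h : σ ∈ c j) :
    bMatch F c ≤ bD (F j) σ := by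
  classical
  refine (iInf₂_le j σ).trans ?_
  rw [if_pos h]

theorem bMatch_neg {F : ℕ → Name B} {c : ℕ → Set (List ℕ)} {j : ℕ} {σ : List ℕ} (h : σ ∉ c j) :
    bMatch F c ≤ (bD (F j) σ)ᶜ := by
  classical
  refine (iInf₂_le j σ).trans ?_
  rw [if_neg h]

/-- disjointness from a basic open set -/
theorem notMem_of_bD (hG : Good (triv B) C U) {V : Name B} (hV : V ∈ C) {σ : List ℕ} {x : W}
    (hx : Pre x σ) (hxU : bX x ∈ U) (hxC : ptN x ∈ C) (h : bD V σ ∈ U) :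
    val C U (ptN x) ∉ val C U V := by
  intro h1
  have h2 := (hG.bmem_iff hxC hV).2 h1
  have h3 : (bX x ⊓ bmem (ptN x) V)ᶜ ∈ U :=
    hG.up _ h _ (iInf_le (fun x : {x : W // Pre x σ} => (bX x.1 ⊓ bmem (ptN x.1) V)ᶜ) ⟨x, hx⟩)
  exact hG.not_compl (hG.inf _ hxU _ h2) h3

theorem pre_map (x : W) (n : ℕ) : Pre x ((List.range n).map (enc x)) := by
  unfold Pre
  simp

theorem of_pre_map {x y : W} {n : ℕ} (h : Pre y ((List.range n).map (enc x))) :
    ∀ i < n, enc x i = enc y i := by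
  unfold Pre at h
  rw [List.length_map, List.length_range] at h
  intro i hi
  have h1 := (List.map_inj_left.1 h) i (List.mem_range.2 hi)
  exact h1.symm

end S2

open S2 in
/-- Module S2: the selection principle for closed covers holds in the generic model. -/
theorem stPos : StPos := by
  intro hHS r5 C U hG gg vv A hseq hA
  have hZF := hG.isZF
  obtain ⟨f, ⟨φ, hφ, -, rfl⟩, hf⟩ := hseq
  -- names of the members of the sequence
  have hname : ∀ z ∈ model (triv B) C U, ∃ x ∈ C, z = val C U x := by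
    rintro z ⟨x, hx, -, rfl⟩
    exact ⟨x, hx, rfl⟩
  have hφN : val C U φ ∈ model (triv B) C U := ⟨φ, hφ, hHS φ, rfl⟩
  have hAN : ∀ k, A k ∈ model (triv B) C U := fun k =>
    snd_mem hZF (hZF.trans _ hφN _ ((hf _).2 ⟨k, rfl⟩))
  choose α hα hα' using fun k => hname _ (hAN k)
  have hK := fun (k : ℕ) (V : Name B) (hV : V ∈ C) => inK_iff hG gg hφ hf α hα hα' k hV
  -- the members are infinite
  have hInf : ∀ k, bInf φ k ∈ U := by
    intro k
    by_contra hk
    obtain ⟨L, hL, hL'⟩ := gg.infk φ hφ k hk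
    obtain ⟨O, hO, hO'⟩ := (hA k).1.1.exists_notMem_finite
      ((L.finite_toSet).image (val C U))
    obtain ⟨V, hV, rfl⟩ := hname O (hZF.trans _ (hAN k) _ hO)
    apply hL'
    have h1 : (⨅ A' : {A' // A' ∈ L}, (beq V A'.1)ᶜ) ∈ U := by
      refine iInf_mem_list hG L (fun A' => (beq V A')ᶜ) fun A' hA' => ?_
      refine compl_beq_mem hG hV (hL A' hA').1 ?_
      intro e
      exact hO' ⟨A', hA', e.symm⟩
    exact hG.up _ (hG.inf _ ((hK k V hV).2 hO) _ h1) _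
      (le_iSup (fun V : Name B => inK φ k V ⊓ ⨅ A' : {A' // A' ∈ L}, (beq V A'.1)ᶜ) V)
  obtain ⟨F, hFC, hF⟩ := gg.enum φ hφ hInf
  have hFn := gg.useq F hFC
  have hF1 : ∀ k m, val C U (F (Nat.pair k m)) ∈ A k := by
    intro k m
    exact (hK k _ (hFn _)).1 (hG.up _ hF _ (bEnum_le_inK φ F k m))
  have hF2 : ∀ k m m', m' < m → val C U (F (Nat.pair k m)) ≠ val C U (F (Nat.pair k m')) := by
    intro k m m' hm e
    have h1 : (beq (F (Nat.pair k m)) (F (Nat.pair k m')))ᶜ ∈ U :=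
      hG.up _ hF _ (bEnum_le_compl φ F k m m' hm)
    exact hG.not_compl ((hG.beq_iff _ _ (hFn _) (hFn _)).2 e) h1
  have hF3 : ∀ k, Function.Injective fun m => val C U (F (Nat.pair k m)) := by
    intro k m m' e
    rcases lt_trichotomy m m' with h1 | h1 | h1
    · exact absurd e.symm (hF2 k m' m h1)
    · exact h1
    · exact absurd e (hF2 k m m' h1)
  rcases gg.main F hFC with ⟨c, x, k, hx, hm, hxU, hxC⟩ | ⟨c, h, hm, hp, hs⟩
  · -- a point kills a row
    exfalso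
    have hxX : val C U (ptN x) ∈ val C U XN := (vv.space _).2 ⟨x, hxC, hxU, rfl⟩
    have hfin := (hA k).1.2.2 _ hxX
    have hinf : {m | x ∈ Oc c k m}.Infinite := by
      rw [Set.infinite_iff_exists_gt]
      intro N
      obtain ⟨m, h1, h2⟩ := hx (N + 1)
      exact ⟨m, h2, by omega⟩
    refine (hinf.image (hF3 k).injOn) (hfin.subset ?_)
    rintro _ ⟨m, ⟨σ, hσ, hσ'⟩, rfl⟩
    refine ⟨hF1 k m, ?_⟩
    exact notMem_of_bD hG (hFn _) hσ' hxU hxC (hG.up _ hm _ (bMatch_pos hσ))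
  · -- the selection
    refine ⟨fun k => val C U (F (Nat.pair k (h k))), ⟨_, ⟨_, hs, hHS _, rfl⟩, ?_⟩,
      fun k => hF1 k _, ?_, ?_⟩
    · intro z
      exact vv.seq _ hs z
    · rintro ⟨k, hk⟩
      exact (hA k).1.2.1 (hk ▸ hF1 k (h k))
    · intro F' hF' hF'X
      have h1 : ∀ z : {z // z ∈ F'}, ∃ x, ptN x ∈ C ∧ bX x ∈ U ∧ z.1 = val C U (ptN x) :=
        fun z => (vv.space z.1).1 (hF'X z.1 z.2)
      choose pt h2 h3 h4 using h1
      have : Finite {z // z ∈ F'} := hF'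
      have h5 : (⨅ x : {x // x ∈ Set.range pt}, bX x.1) ∈ U := by
        refine iInf_mem_set hG (Set.range pt) (Set.finite_range pt) bX ?_
        rintro _ ⟨z, rfl⟩
        exact h3 z
      have h6 : bProm (Oc c) h ⊓ (⨅ x : {x // x ∈ Set.range pt}, bX x.1) ≠ ⊥ := by
        intro e
        exact hG.bot (e ▸ hG.inf _ hp _ h5)
      obtain ⟨k, hk⟩ := r5 (Oc c) h (Set.range pt) (Set.finite_range pt) h6
      refine ⟨_, ⟨k, rfl⟩, ?_⟩
      intro z hz
      by_contra hzn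
      have hx := hk _ ⟨⟨z, hz⟩, rfl⟩
      apply hx
      obtain ⟨n, hn⟩ := ((hA k).2 _ (hF1 k (h k))).2 z (hF'X z hz) hzn
      set x := pt ⟨z, hz⟩ with hxdef
      have hzx : z = val C U (ptN x) := h4 ⟨z, hz⟩
      have hxC : ptN x ∈ C := h2 ⟨z, hz⟩
      have h7 : bD (F (Nat.pair k (h k))) ((List.range n).map (enc x)) ∈ U := by
        refine gg.disj _ (hFn _) _ ?_
        intro y hy hyU hyC hyV
        have hyX : val C U (ptN y) ∈ val C U XN := (vv.space _).2 ⟨y, hyC, hyU, rfl⟩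
        refine hn _ hyX ?_ ((hG.bmem_iff hyC (hFn _)).1 hyV)
        rw [hzx]
        exact (vv.agree x y hxC hyC n).2 (of_pre_map hy)
      by_cases h8 : (List.range n).map (enc x) ∈ c (Nat.pair k (h k))
      · exact ⟨_, h8, pre_map x n⟩
      · exact absurd (hG.up _ hm _ (bMatch_neg h8)) (hG.not_compl h7)

end GO

end SymExt
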