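import Pool.Agent.Lib.MP_70f607_gt.Asm
import Pool.Agent.Lib.MP_70f607_gt.C1
import Pool.Agent.Lib.MP_70f607_gt.C2
import Pool.Agent.Lib.MP_70f607_gt.C3
import Pool.Agent.Lib.MP_70f607_gt.C4
import Pool.Agent.Lib.MP_70f607_gt.C5
import Pool.Agent.Lib.MP_70f607_gt.G1
import Pool.Agent.Lib.MP_70f607_gt.G2
import Pool.Agent.Lib.MP_70f607_gt.F1
import Pool.Agent.Lib.MP_70f607_gt.F2
import Pool.Agent.Lib.MP_70f607_gt.F3
import Pool.Agent.Lib.MP_70f607_gt.S0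
import Pool.Agent.Lib.MP_70f607_gt.S1
import Pool.Agent.Lib.MP_70f607_gt.S2
import Pool.Agent.Lib.MP_70f607_gt.M1

/-!
# The main theorem
-/

namespace SymExt

namespace GO

theorem main :
    ∃ N : Set ZFSet.{0}, N.Countable ∧ IsZFC N ∧ ∃ X ∈ N, (∀ x ∈ X, IsPoint x) ∧
      SelOne N X (ClosedSub X) ∧ SelOne N X (ClopenSub X) ∧ ¬ SelOne N X (OpenSub X) := by
  have d2 : StD2 := stD2 stE1 (stSel stUni)
  obtain ⟨r1, r4, r5, r6⟩ := stR1456 stD1 stCl stDist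
  have hB : StBool := ⟨r1, stR2 stCl stTree stDist, stR3 stCl d2 stDist, r4, r5, r6⟩
  exact main_of stAC hB stGG stVV stNeg stPos

end GO

end SymExt
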