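import Pool.Agent.Lib.MP_70f607_gt.Force
import Pool.Agent.Lib.MP_694cb9_lc.SName

/-!
# Module S0: the values of the names
-/

namespace SymExt

namespace GO

open Name

namespace S0Aux

variable {C : Set (Name B)} {U : Set B}

/-- Different elements have different codes. -/
theorem enc_inj {x y : W} (h : ∀ j, enc x j = enc y j) : x = y := by
  have key : ∀ k n i : ℕ, x (k, n) ≤ (i : ℕ∞) ↔ y (k, n) ≤ (i : ℕ∞) := by
    intro k n i
    have := h (Nat.pair k (Nat.pair n i))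
    unfold enc at this
    simp only [Nat.unpair_pair] at this
    by_cases h1 : x (k, n) ≤ (i : ℕ∞) <;> by_cases h2 : y (k, n) ≤ (i : ℕ∞) <;>
      simp [h1, h2] at this ⊢
  have le_of : ∀ a b : ℕ∞, (∀ i : ℕ, b ≤ (i : ℕ∞) → a ≤ (i : ℕ∞)) → a ≤ b := by
    intro a b hab
    induction b using ENat.recTopCoe with
    | top => exact le_top
    | coe m => exact hab m le_rfl
  funext ⟨k, n⟩
  exact le_antisymm (le_of _ _ fun i => (key k n i).2) (le_of _ _ fun i => (key k n i).1)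

theorem seq (hG : Good (triv B) C U) (hg : GG C U) (F : ℕ → Name B) (hF : seqN F ∈ C)
    (z : ZFSet) : z ∈ val C U (seqN F) ↔ ∃ n, z = ZFSet.pair (natSet n) (val C U (F n)) := by
  have hn : ∀ n, F n ∈ C := hg.useq F hF
  have hv : ∀ n, val C U (opN (natN n) (F n)) = ZFSet.pair (natSet n) (val C U (F n)) := fun n => by
    rw [hG.val_opN (hG.nat n) (hn n), hG.val_natN]
  rw [mem_val]
  constructor
  · rintro ⟨n, -, -, h3⟩
    exact ⟨n, h3.trans (hv n)⟩
  · rintro ⟨n, h3⟩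
    exact ⟨n, hG.opN_mem (hG.nat n) (hn n), hG.top, h3.trans (hv n).symm⟩

theorem pt (hG : Good (triv B) C U) (hg : GG C U) (x : W) (hx : ptN x ∈ C) (z : ZFSet) :
    z ∈ val C U (ptN x) ↔ ∃ n, z = ZFSet.pair (natSet n) (natSet (enc x n)) := by
  rw [ptN, seq hG hg _ hx]
  simp only [hG.val_natN]

theorem pt_pair (hG : Good (triv B) C U) (hg : GG C U) (x : W) (hx : ptN x ∈ C) (i j : ℕ) :
    ZFSet.pair (natSet i) (natSet j) ∈ val C U (ptN x) ↔ j = enc x i := by
  rw [pt hG hg x hx]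
  constructor
  · rintro ⟨n, hn⟩
    obtain ⟨h1, h2⟩ := ZFSet.pair_inj.1 hn
    rw [natSet_inj h1, natSet_inj h2]
  · rintro rfl
    exact ⟨i, rfl⟩

end S0Aux

open S0Aux in
/-- Module S0. -/
theorem stVV : StVV := by
  intro C U hG hg
  refine ⟨seq hG hg, pt hG hg, ?_, ?_, ?_, ?_, ?_⟩
  · intro x y hx hy he
    refine enc_inj fun j => ?_
    rw [← pt_pair hG hg y hy, ← he, pt_pair hG hg x hx]
  · intro x y hx hy n
    unfold AgreeTo
    simp only [pt_pair hG hg x hx, pt_pair hG hg y hy]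
    constructor
    · intro h i hi
      exact (h i hi (enc x i)).1 rfl
    · intro h i hi j
      rw [h i hi]
  · intro z
    rw [mem_val]
    exact Iff.rfl
  · intro k n z
    rw [mem_val]
    constructor
    · rintro ⟨⟨x, hx⟩, h1, h2, h3⟩
      exact ⟨x, hx, h1, h2, h3⟩
    · rintro ⟨x, hx, h1, h2, h3⟩
      exact ⟨⟨x, hx⟩, h1, h2, h3⟩
  · intro k z
    rw [mem_val]
    constructor
    · rintro ⟨n, -, -, h3⟩
      exact ⟨n, h3⟩
    · rintro ⟨n, h3⟩
      exact ⟨n, hg.cU k n, hG.top, h3⟩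

end GO

end SymExt
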